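import Mathlib
import Pool.Agent.TS.Form
import Pool.Agent.TS.Basic
import Pool.Agent.TS.Alg

set_option autoImplicit false

/-!
# The two eigenvectors that are quadratic polynomials in the Perron vector
-/

namespace TV

open Finset TE TS

variable {V : Type*} [Fintype V] [DecidableEq V]
variable {G : SimpleGraph V} [DecidableRel G.Adj] {T θ0 θ1 θ2 : ℝ} {α : V → ℝ}

/-- `deg x - a - S/(θ0 - b) α x` -/
noncomputable def pv (G : SimpleGraph V) [DecidableRel G.Adj] (α : V → ℝ) (θ0 a b : ℝ) (x : V) : ℝ :=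
  ∑ y, ad G x y - a - (∑ z, α z) / (θ0 - b) * α x

lemma pv_eig (h : Dat G T θ0 θ1 θ2 α) {a b : ℝ} (hs : a + b = θ1 + θ2) (hp : a * b = θ1 * θ2)
    (hb : b < θ0) (x : V) : ∑ y, ad G x y * pv G α θ0 a b y = b * pv G α θ0 a b x := by
  have h1 := h.op (fun _ => (1 : ℝ)) x
  have h2 := h.eig x
  simp only [mul_one] at h1
  have hne : θ0 - b ≠ 0 := (sub_pos.mpr hb).ne'
  have h3 : ∑ y, ad G x y * pv G α θ0 a b y = ∑ y, ad G x y * (∑ z, ad G y z)
      - a * ∑ y, ad G x y - (∑ z, α z) / (θ0 - b) * ∑ y, ad G x y * α y := by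
    rw [Finset.mul_sum, Finset.mul_sum, ← Finset.sum_sub_distrib, ← Finset.sum_sub_distrib]
    refine Finset.sum_congr rfl fun y _ => ?_
    unfold pv
    ring
  have h4 : (∑ z, α z) = (∑ z, α z) / (θ0 - b) * (θ0 - b) := by field_simp
  rw [h3, h2]
  unfold pv
  rw [← hs, ← hp] at h1
  generalize (∑ z, α z) / (θ0 - b) = U at h4 ⊢
  rw [h4] at h1
  linear_combination h1

lemma pv_perp (h : Dat G T θ0 θ1 θ2 α) {a b : ℝ} (hs : a + b = θ1 + θ2) (hp : a * b = θ1 * θ2)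
    (hb : b < θ0) : ∑ x, pv G α θ0 a b x * α x = 0 := by
  have h1 : ∑ x, pv G α θ0 a b x * ∑ y, ad G x y * α y = θ0 * ∑ x, pv G α θ0 a b x * α x := by
    rw [Finset.mul_sum]
    refine Finset.sum_congr rfl fun x _ => ?_
    rw [h.eig x]; ring
  have h2 : ∑ x, (∑ y, ad G x y * pv G α θ0 a b y) * α x = b * ∑ x, pv G α θ0 a b x * α x := by
    rw [Finset.mul_sum]
    refine Finset.sum_congr rfl fun x _ => ?_
    rw [pv_eig h hs hp hb x]; ring
  rw [ad_adjoint, h2] at h1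
  have h3 : (θ0 - b) * ∑ x, pv G α θ0 a b x * α x = 0 := by linarith
  exact (mul_eq_zero.mp h3).resolve_left (sub_pos.mpr hb).ne'

lemma pv_sq (h : Dat G T θ0 θ1 θ2 α) {a b : ℝ} (hs : a + b = θ1 + θ2) (hp : a * b = θ1 * θ2)
    (hb : b < θ0) : ∑ x, pv G α θ0 a b x ^ 2 = (b - a) * ∑ x, pv G α θ0 a b x := by
  have h1 := pv_perp h hs hp hb
  have h2 : ∑ x, pv G α θ0 a b x * ∑ y, ad G x y * (1 : ℝ)
      = ∑ x, (∑ y, ad G x y * pv G α θ0 a b y) * (1 : ℝ) := ad_adjoint _ _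
  simp only [mul_one] at h2
  have h3 : ∑ x, (∑ y, ad G x y * pv G α θ0 a b y) = b * ∑ x, pv G α θ0 a b x := by
    rw [Finset.mul_sum]
    exact Finset.sum_congr rfl fun x _ => pv_eig h hs hp hb x
  have h4 : ∑ x, pv G α θ0 a b x ^ 2 = ∑ x, pv G α θ0 a b x * ∑ y, ad G x y
      - a * ∑ x, pv G α θ0 a b x - (∑ z, α z) / (θ0 - b) * ∑ x, pv G α θ0 a b x * α x := by
    rw [Finset.mul_sum, Finset.mul_sum, ← Finset.sum_sub_distrib, ← Finset.sum_sub_distrib]
    refine Finset.sum_congr rfl fun x _ => ?_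
    have : pv G α θ0 a b x = ∑ y, ad G x y - a - (∑ z, α z) / (θ0 - b) * α x := rfl
    rw [sq]
    nth_rewrite 2 [this]
    ring
  rw [h4, h1, h2, h3]
  ring

lemma sum_deg (h : Dat G T θ0 θ1 θ2 α) :
    ∑ x, ∑ y, ad G x y = (θ0 - θ1) * (θ0 - θ2) - θ1 * θ2 * Fintype.card V := by
  have h1 : ∀ x, ∑ y, ad G x y = α x ^ 2 - θ1 * θ2 := fun x => by rw [sum_ad, h.diag x]
  rw [Finset.sum_congr rfl fun x _ => h1 x, Finset.sum_sub_distrib, norm_sq h]
  simp [mul_comm]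

lemma pv_sum (h : Dat G T θ0 θ1 θ2 α) {a b : ℝ} :
    ∑ x, pv G α θ0 a b x = (θ0 - θ1) * (θ0 - θ2) - θ1 * θ2 * Fintype.card V
      - a * Fintype.card V - (∑ z, α z) ^ 2 / (θ0 - b) := by
  unfold pv
  rw [Finset.sum_sub_distrib, Finset.sum_sub_distrib, sum_deg h, ← Finset.mul_sum]
  simp only [Finset.sum_const, Finset.card_univ, nsmul_eq_mul]
  ring

lemma pv_eq (h : Dat G T θ0 θ1 θ2 α) {a b : ℝ} (x : V) :
    pv G α θ0 a b x = α x ^ 2 - (∑ z, α z) / (θ0 - b) * α x + (-(θ1 * θ2) - a) := by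
  unfold pv
  rw [sum_ad, h.diag x]
  ring

/-- the real algebra behind everything: `n` vertices, `m = θ0 - θ2`, `y = θ0 - θ1`,
`c = -θ1 θ2 - θ1`, `X = (∑ α)^2`, `P` the square norm of the eigenvector. -/
lemma real_alg {n m y c X P : ℝ} (hn : 0 < n) (hy : 0 < y) (hym : y < m) (hP0 : 0 ≤ P)
    (hP : P = (m - y) * (X / m - m * y - c * n))
    (hQ : 0 ≤ (m - y) * (m * y + (c + (m - y)) * n - X / y)) :
    m * P ≤ (m - y) ^ 2 * (n * (y - c) - m * y) ∧ 0 ≤ n * (y - c) - m * y ∧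
    (0 ≤ c → P ≤ (m - y) ^ 2 / m * n * (X / m ^ 2 - 4 * c)) := by
  have hm : 0 < m := hy.trans hym
  have hD : 0 < m - y := sub_pos.mpr hym
  have hX1 : X ≤ y * (m * y + (c + (m - y)) * n) := by
    have h1 : 0 ≤ m * y + (c + (m - y)) * n - X / y := nonneg_of_mul_nonneg_right hQ hD
    have h2 : X / y ≤ m * y + (c + (m - y)) * n := by linarith
    rw [div_le_iff₀ hy] at h2
    linarith
  have hmP : m * P = (m - y) * (X - m * (m * y + c * n)) := by
    rw [hP]; field_simp; ring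
  have h1 : m * P ≤ (m - y) ^ 2 * (n * (y - c) - m * y) := by
    rw [hmP]
    have h3 : X - m * (m * y + c * n) ≤ (m - y) * (n * (y - c) - m * y) := by nlinarith
    calc (m - y) * (X - m * (m * y + c * n)) ≤ (m - y) * ((m - y) * (n * (y - c) - m * y)) :=
          mul_le_mul_of_nonneg_left h3 hD.le
      _ = _ := by ring
  have h2 : 0 ≤ n * (y - c) - m * y := by
    have h3 : 0 ≤ (m - y) ^ 2 * (n * (y - c) - m * y) := le_trans (mul_nonneg hm.le hP0) h1
    exact nonneg_of_mul_nonneg_right h3 (pow_pos hD 2)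
  refine ⟨h1, h2, ?_⟩
  intro hc
  have hXlow : m * (m * y + c * n) ≤ X := by
    have h3 : 0 ≤ (m - y) * (X - m * (m * y + c * n)) := by
      rw [← hmP]; exact mul_nonneg hm.le hP0
    have := nonneg_of_mul_nonneg_right h3 hD
    linarith
  -- f = c n^2 - 3 c n m + m^2 y ≥ 0
  have hf : 0 ≤ c * n ^ 2 - 3 * c * n * m + m ^ 2 * y := by
    rcases le_or_gt n m with hnm | hnm
    · have h3 : c * n ≤ 0 := by nlinarith
      have h4 : c = 0 := by
        rcases hc.lt_or_eq with h5 | h5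
        · exfalso; nlinarith [mul_pos h5 hn]
        · exact h5.symm
      rw [h4]
      nlinarith [mul_pos (pow_pos hm 2) hy]
    · have h3 : 0 < n - m := sub_pos.mpr hnm
      have h4 : n * c ≤ y * (n - m) := by nlinarith
      have h5 : 0 ≤ (n - m) * (c * n ^ 2 - 3 * c * n * m + m ^ 2 * y) := by
        have h6 : (n - m) * (c * n ^ 2 - 3 * c * n * m + m ^ 2 * y)
            = c * n * (n - 2 * m) ^ 2 + m ^ 2 * (y * (n - m) - n * c) := by ring
        rw [h6]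
        have := mul_nonneg (mul_nonneg hc hn.le) (sq_nonneg (n - 2 * m))
        have := mul_nonneg (pow_pos hm 2).le (sub_nonneg.mpr h4)
        linarith
      exact nonneg_of_mul_nonneg_right h5 h3
  have hd : n * (y - c) - m * y ≤ n * (X / m ^ 2 - 4 * c) := by
    have h3 : m ^ 2 * (n * (y - c) - m * y) ≤ m ^ 2 * (n * (X / m ^ 2 - 4 * c)) := by
      have h4 : m ^ 2 * (n * (X / m ^ 2 - 4 * c)) = n * X - 4 * c * n * m ^ 2 := by
        field_simp
      rw [h4]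
      have h5 : n * (m * (m * y + c * n)) ≤ n * X := mul_le_mul_of_nonneg_left hXlow hn.le
      have h6 : 0 ≤ m * (c * n ^ 2 - 3 * c * n * m + m ^ 2 * y) := mul_nonneg hm.le hf
      nlinarith
    exact le_of_mul_le_mul_left h3 (pow_pos hm 2)
  have h7 : m * P ≤ m * ((m - y) ^ 2 / m * n * (X / m ^ 2 - 4 * c)) := by
    have h8 : m * ((m - y) ^ 2 / m * n * (X / m ^ 2 - 4 * c))
        = (m - y) ^ 2 * (n * (X / m ^ 2 - 4 * c)) := by field_simp
    rw [h8]
    exact h1.trans (mul_le_mul_of_nonneg_left hd (sq_nonneg _))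
  exact le_of_mul_le_mul_left h7 hm

end TV
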