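import Mathlib
import Pool.Agent.TV.Core
import Pool.Agent.TS.Zero

set_option autoImplicit false
set_option linter.unusedSectionVars false
set_option linter.unusedVariables false

/-!
# Windows of the two roots: counting vertices and valencies
-/

namespace TV

open Finset TE TS

lemma window_card (F : Finset ℝ) (hF : ∀ a ∈ F, ∀ b ∈ F, a ≠ b → 1 ≤ |a - b|) (lo l : ℝ)
    (hl : 0 ≤ l) (hin : ∀ a ∈ F, lo ≤ a ∧ a ≤ lo + l) : F.card ≤ ⌊l⌋₊ + 1 := by
  rw [← Finset.card_range (⌊l⌋₊ + 1)]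
  apply Finset.card_le_card_of_injOn (fun a => ⌊a - lo⌋₊)
  · intro a ha
    have h1 := hin a (by simpa using ha)
    simp only [Finset.coe_range, Set.mem_Iio]
    have : ⌊a - lo⌋₊ ≤ ⌊l⌋₊ := Nat.floor_le_floor (by linarith)
    omega
  · intro a ha b hb hab
    by_contra hne
    have h1 := hF a (by simpa using ha) b (by simpa using hb) hne
    have ha' := (hin a (by simpa using ha)).1
    have hb' := (hin b (by simpa using hb)).1
    simp only at hab
    have e1 := Nat.floor_le (sub_nonneg.mpr ha')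
    have e2 := Nat.lt_floor_add_one (a - lo)
    have e3 := Nat.floor_le (sub_nonneg.mpr hb')
    have e4 := Nat.lt_floor_add_one (b - lo)
    rw [hab] at e1 e2
    have : |a - b| < 1 := by
      rw [abs_lt]; constructor <;> linarith
    linarith

lemma two_roots {a u v r s : ℝ} (hr : 0 ≤ r) (hs : 0 ≤ s) (huv : v - u = s)
    (h1 : r < |a - u|) (h2 : r < |a - v|) : r ^ 2 * s ^ 2 / 4 ≤ ((a - u) * (a - v)) ^ 2 := by
  have h3 : s ≤ |a - u| + |a - v| := by
    have : s = (a - u) + (-(a - v)) := by linarith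
    calc s = (a - u) + (-(a - v)) := this
      _ ≤ |a - u| + |a - v| := add_le_add (le_abs_self _) (neg_le_abs _)
  have h4 : r * s / 2 ≤ |a - u| * |a - v| := by
    rcases le_total (|a - u|) (|a - v|) with h5 | h5
    · have h6 : s / 2 ≤ |a - v| := by linarith
      calc r * s / 2 = r * (s / 2) := by ring
        _ ≤ |a - u| * |a - v| := mul_le_mul h1.le h6 (by linarith) (abs_nonneg _)
    · have h6 : s / 2 ≤ |a - u| := by linarith
      calc r * s / 2 = (s / 2) * r := by ring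
        _ ≤ |a - u| * |a - v| := mul_le_mul h6 h2.le hr (abs_nonneg _)
  have h5 : 0 ≤ r * s / 2 := by positivity
  have h6 : ((a - u) * (a - v)) ^ 2 = (|a - u| * |a - v|) ^ 2 := by
    rw [← abs_mul, sq_abs]
  rw [h6]
  calc r ^ 2 * s ^ 2 / 4 = (r * s / 2) ^ 2 := by ring
    _ ≤ (|a - u| * |a - v|) ^ 2 := pow_le_pow_left₀ h5 h4 2

variable {V : Type*} [Fintype V] [DecidableEq V]
variable {G : SimpleGraph V} [DecidableRel G.Adj] {T θ0 θ1 θ2 : ℝ} {α : V → ℝ}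

lemma img (h : Dat G T θ0 θ1 θ2 α) (W : Finset V) :
    (W.image (fun x => G.degree x)).card ≤ (W.image α).card := by
  have h1 : W.image (fun x => G.degree x) = (W.image α).image (fun a => ⌊a ^ 2 - θ1 * θ2⌋₊) := by
    rw [Finset.image_image]
    refine Finset.image_congr fun x _ => ?_
    simp only [Function.comp_apply]
    rw [← h.diag x, Nat.floor_natCast]
  rw [h1]
  exact Finset.card_image_le

lemma sep (h : Dat G T θ0 θ1 θ2 α) (hreg : ¬ ∃ d, G.IsRegularOfDegree d) (h1 : 0 < θ1)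
    (x y : V) (hxy : α x ≠ α y) : 1 ≤ |α x - α y| := by
  obtain ⟨a, ha⟩ := h.int_sq hreg x
  obtain ⟨b, hb⟩ := h.int_sq hreg y
  obtain ⟨c, hc⟩ := int_mul h hreg h1 x y
  have h2 : (α x - α y) ^ 2 = ((a + b - 2 * c : ℤ) : ℝ) := by
    push_cast; rw [← ha, ← hb, ← hc]; ring
  have h3 : 0 < (α x - α y) ^ 2 := by
    have := sub_ne_zero.mpr hxy
    positivity
  rw [h2] at h3
  have h4 : 0 < a + b - 2 * c := by exact_mod_cast h3
  have h5 : (1 : ℝ) ≤ (α x - α y) ^ 2 := by rw [h2]; exact_mod_cast h4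
  rw [← sq_abs] at h5
  nlinarith [abs_nonneg (α x - α y)]

lemma sep_img (h : Dat G T θ0 θ1 θ2 α) (hreg : ¬ ∃ d, G.IsRegularOfDegree d) (h1 : 0 < θ1)
    (W : Finset V) : ∀ a ∈ W.image α, ∀ b ∈ W.image α, a ≠ b → 1 ≤ |a - b| := by
  intro a ha b hb hab
  obtain ⟨x, _, rfl⟩ := Finset.mem_image.mp ha
  obtain ⟨y, _, rfl⟩ := Finset.mem_image.mp hb
  exact sep h hreg h1 x y hab

lemma exists_edge' (h : Dat G T θ0 θ1 θ2 α) : ∃ x y, G.Adj x y := by
  obtain ⟨x⟩ := h.conn.nonempty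
  by_contra hcon
  push Not at hcon
  have h1 := h.eig x
  have h2 : ∑ y, ad G x y * α y = 0 := Finset.sum_eq_zero fun y _ => by
    unfold ad; rw [if_neg (hcon x y)]; ring
  rw [h2] at h1
  have := mul_pos h.h0 (h.pos x)
  linarith

lemma theta2_le (h : Dat G T θ0 θ1 θ2 α) : θ2 ≤ -1 := by
  obtain ⟨x, y, hxy⟩ := exists_edge' h
  have key : ∀ x y, G.Adj x y → α x ≤ α y → (θ1 + 1) * (θ2 + 1) ≤ 0 := by
    intro x y hxy hle
    have h1 := cd_le_deg_adj x y hxy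
    rw [h.adj x y hxy, h.diag x] at h1
    have h2 : α x * α x ≤ α x * α y := mul_le_mul_of_nonneg_left hle (h.pos x).le
    nlinarith
  have h3 : (θ1 + 1) * (θ2 + 1) ≤ 0 := by
    rcases le_total (α x) (α y) with h4 | h4
    · exact key x y hxy h4
    · exact key y x hxy.symm h4
  by_contra hcon
  push Not at hcon
  have h4 : 0 < θ2 + 1 := by linarith
  have h5 : 0 < θ1 + 1 := by linarith [h.h12]
  have := mul_pos h5 h4
  linarith

/-- the square norm of the `θ2`-eigenvector -/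
noncomputable def PP (G : SimpleGraph V) [DecidableRel G.Adj] (α : V → ℝ) (θ0 θ1 θ2 : ℝ) : ℝ :=
  ∑ x, pv G α θ0 θ1 θ2 x ^ 2

lemma alg_apply (h : Dat G T θ0 θ1 θ2 α) :
    (θ0 - θ1) * (θ0 - θ2) ≤ (Fintype.card V : ℝ) * (θ0 + θ1 * θ2) ∧
    (0 ≤ θ1 → PP G α θ0 θ1 θ2 ≤ (θ1 - θ2) ^ 2 / (θ0 - θ2) * Fintype.card V *
      (((∑ z, α z) / (θ0 - θ2)) ^ 2 - 4 * (-(θ1 * θ2) - θ1))) := by
  have h01 := h.h01
  have h12 := h.h12
  have hn : (0 : ℝ) < Fintype.card V := by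
    have := h.conn.nonempty
    exact_mod_cast Fintype.card_pos
  have hsq1 := pv_sq h (a := θ1) (b := θ2) rfl rfl (by linarith)
  have hsq2 := pv_sq h (a := θ2) (b := θ1) (add_comm _ _) (mul_comm _ _) h01
  rw [pv_sum h] at hsq1 hsq2
  have hP0 : 0 ≤ PP G α θ0 θ1 θ2 := Finset.sum_nonneg fun x _ => sq_nonneg _
  have hQ0 : 0 ≤ ∑ x, pv G α θ0 θ2 θ1 x ^ 2 := Finset.sum_nonneg fun x _ => sq_nonneg _
  obtain ⟨h1, h2, h3⟩ := real_alg (n := (Fintype.card V : ℝ)) (m := θ0 - θ2) (y := θ0 - θ1)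
    (c := -(θ1 * θ2) - θ1) (X := (∑ z, α z) ^ 2) (P := PP G α θ0 θ1 θ2) hn (by linarith)
    (by linarith) hP0 (by unfold PP; rw [hsq1]; ring) (by
      have : (θ0 - θ2 - (θ0 - θ1)) * ((θ0 - θ2) * (θ0 - θ1) +
          (-(θ1 * θ2) - θ1 + (θ0 - θ2 - (θ0 - θ1))) * (Fintype.card V : ℝ)
          - (∑ z, α z) ^ 2 / (θ0 - θ1)) = ∑ x, pv G α θ0 θ2 θ1 x ^ 2 := by rw [hsq2]; ring
      rw [this]; exact hQ0)
  refine ⟨?_, ?_⟩
  · nlinarith
  · intro hθ1
    have hθ2 := theta2_le h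
    have hc : 0 ≤ -(θ1 * θ2) - θ1 := by nlinarith
    have h4 := h3 hc
    have e1 : θ0 - θ2 - (θ0 - θ1) = θ1 - θ2 := by ring
    rw [e1] at h4
    rw [div_pow]
    exact h4

end TV
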