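import Mathlib
import Pool.Agent.TV.Win
import Pool.Agent.VB.C

set_option autoImplicit false
set_option linter.unusedSectionVars false
set_option linter.unusedVariables false

/-!
# Almost all vertices have one of few valencies
-/

namespace TV

open Finset TE TS

variable {V : Type*} [Fintype V] [DecidableEq V]
variable {G : SimpleGraph V} [DecidableRel G.Adj] {T θ0 θ1 θ2 : ℝ} {α : V → ℝ}

/-- For every radius `r` there are two centres such that few vertices are outside both windows. -/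
lemma windows (h : Dat G T θ0 θ1 θ2 α) (h1 : 0 ≤ θ1) : ∃ u v : ℝ, ∀ r : ℝ, 0 ≤ r →
    ((univ.filter (fun x => r < |α x - u| ∧ r < |α x - v|)).card : ℝ) * r ^ 2 ≤
      4 * ((θ1 - θ2) ^ 2 / (θ0 - θ2)) * Fintype.card V := by
  obtain ⟨hT0, hA⟩ := alg_apply h
  have hP := hA h1
  have h01 := h.h01
  have h12 := h.h12
  have hn : (0 : ℝ) < Fintype.card V := by
    have := h.conn.nonempty
    exact_mod_cast Fintype.card_pos
  set K : ℝ := (θ1 - θ2) ^ 2 / (θ0 - θ2) with hK
  set U : ℝ := (∑ z, α z) / (θ0 - θ2) with hU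
  set c : ℝ := -(θ1 * θ2) - θ1 with hc
  have hKpos : 0 < K := by
    have : 0 < θ1 - θ2 := by linarith
    have : 0 < θ0 - θ2 := by linarith
    positivity
  have hP0 : 0 ≤ PP G α θ0 θ1 θ2 := Finset.sum_nonneg fun x _ => sq_nonneg _
  have hdisc : 0 ≤ U ^ 2 - 4 * c := by
    have h2 : 0 ≤ K * Fintype.card V * (U ^ 2 - 4 * c) := hP0.trans hP
    exact nonneg_of_mul_nonneg_right h2 (mul_pos hKpos hn)
  set s : ℝ := √(U ^ 2 - 4 * c) with hs
  have hs2 : s ^ 2 = U ^ 2 - 4 * c := Real.sq_sqrt hdisc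
  have hs0 : 0 ≤ s := Real.sqrt_nonneg _
  have hpv : ∀ x, pv G α θ0 θ1 θ2 x = (α x - (U - s) / 2) * (α x - (U + s) / 2) := by
    intro x
    rw [pv_eq h x]
    have : (-(θ1 * θ2) - θ1) = (U ^ 2 - s ^ 2) / 4 := by rw [hs2]; ring
    rw [this]
    ring
  refine ⟨(U - s) / 2, (U + s) / 2, ?_⟩
  intro r hr
  set W := univ.filter (fun x => r < |α x - (U - s) / 2| ∧ r < |α x - (U + s) / 2|) with hW
  have hsum : (W.card : ℝ) * (r ^ 2 * s ^ 2 / 4) ≤ PP G α θ0 θ1 θ2 := by
    have h2 : ∑ x ∈ W, r ^ 2 * s ^ 2 / 4 ≤ ∑ x ∈ W, pv G α θ0 θ1 θ2 x ^ 2 := by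
      refine Finset.sum_le_sum fun x hx => ?_
      rw [hW, Finset.mem_filter] at hx
      rw [hpv x]
      exact two_roots hr hs0 (by ring) hx.2.1 hx.2.2
    rw [Finset.sum_const, nsmul_eq_mul] at h2
    refine h2.trans ?_
    unfold PP
    exact Finset.sum_le_sum_of_subset_of_nonneg (Finset.subset_univ _) fun x _ _ => sq_nonneg _
  rcases hs0.lt_or_eq with hspos | hszero
  · have h2 : (W.card : ℝ) * (r ^ 2 * s ^ 2 / 4) ≤ K * Fintype.card V * s ^ 2 := by
      rw [hs2] at hsum ⊢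
      exact hsum.trans hP
    have h3 : s ^ 2 * ((W.card : ℝ) * r ^ 2) ≤ s ^ 2 * (4 * K * Fintype.card V) := by nlinarith
    exact le_of_mul_le_mul_left h3 (pow_pos hspos 2)
  · have h2 : PP G α θ0 θ1 θ2 ≤ 0 := by
      rw [← hs2, ← hszero] at hP
      simpa using hP
    have h3 : ∀ x, pv G α θ0 θ1 θ2 x = 0 := by
      intro x
      have h4 : PP G α θ0 θ1 θ2 = 0 := le_antisymm h2 hP0
      unfold PP at h4
      have h5 := (Finset.sum_eq_zero_iff_of_nonneg (fun x _ => sq_nonneg _)).mp h4 x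
        (Finset.mem_univ x)
      exact pow_eq_zero_iff (two_ne_zero) |>.mp h5
    have h4 : W = ∅ := by
      rw [Finset.eq_empty_iff_forall_notMem]
      intro x hx
      rw [hW, Finset.mem_filter] at hx
      have h5 := h3 x
      rw [hpv x, ← hszero] at h5
      have h6 : α x - (U - 0) / 2 = 0 := by
        have : (α x - (U - 0) / 2) * (α x - (U + 0) / 2) = (α x - (U - 0) / 2) ^ 2 := by ring
        rw [this] at h5
        exact pow_eq_zero_iff (two_ne_zero) |>.mp h5
      have h7 := hx.2.1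
      rw [← hszero, h6, abs_zero] at h7
      linarith
    rw [h4]
    simp only [Finset.card_empty, Nat.cast_zero, zero_mul]
    positivity

/-- part (a), nonregular graphs with positive second eigenvalue -/
lemma partA (h : Dat G T θ0 θ1 θ2 α) (hreg : ¬ ∃ d, G.IsRegularOfDegree d) (h1 : 0 < θ1)
    (δ : ℝ) (hδ : 0 < δ) : ∃ D : Finset ℕ,
      D.card ≤ 2 + 2 * ⌊4 * √((θ1 - θ2) ^ 2 / (θ0 - θ2) / δ)⌋₊ ∧
      ((univ.filter (fun x => G.degree x ∉ D)).card : ℝ) ≤ δ * Fintype.card V := by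
  obtain ⟨u, v, huv⟩ := windows h h1.le
  have h01 := h.h01
  have h12 := h.h12
  set K : ℝ := (θ1 - θ2) ^ 2 / (θ0 - θ2) with hK
  have hKpos : 0 < K := by
    have : 0 < θ1 - θ2 := by linarith
    have : 0 < θ0 - θ2 := by linarith
    positivity
  have hKδ : 0 < K / δ := div_pos hKpos hδ
  set r : ℝ := 2 * √(K / δ) with hr
  have hr0 : 0 ≤ r := by positivity
  have hr2 : r ^ 2 = 4 * (K / δ) := by rw [hr, mul_pow, Real.sq_sqrt hKδ.le]; norm_num
  have h2r : 2 * r = 4 * √(K / δ) := by rw [hr]; ring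
  set Wu := univ.filter (fun x => |α x - u| ≤ r) with hWu
  set Wv := univ.filter (fun x => |α x - v| ≤ r) with hWv
  have hwin : ∀ w : ℝ, ((univ.filter (fun x => |α x - w| ≤ r)).image
      (fun x => G.degree x)).card ≤ ⌊4 * √(K / δ)⌋₊ + 1 := by
    intro w
    refine (img h _).trans ?_
    refine window_card _ (sep_img h hreg h1 _) (w - r) (4 * √(K / δ)) (by positivity) ?_
    intro a ha
    obtain ⟨x, hx, rfl⟩ := Finset.mem_image.mp ha
    rw [Finset.mem_filter] at hx
    have := abs_le.mp hx.2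
    constructor <;> linarith
  refine ⟨Wu.image (fun x => G.degree x) ∪ Wv.image (fun x => G.degree x), ?_, ?_⟩
  · refine (Finset.card_union_le _ _).trans ?_
    have e1 := hwin u
    have e2 := hwin v
    rw [← hWu] at e1
    rw [← hWv] at e2
    omega
  · have h3 : univ.filter (fun x => G.degree x ∉
        (Wu.image (fun x => G.degree x) ∪ Wv.image (fun x => G.degree x))) ⊆
        univ.filter (fun x => r < |α x - u| ∧ r < |α x - v|) := by
      intro x hx
      rw [Finset.mem_filter] at hx ⊢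
      refine ⟨Finset.mem_univ _, ?_⟩
      have h4 := hx.2
      rw [Finset.mem_union, not_or] at h4
      constructor
      · by_contra h5
        have h6 : x ∈ Wu := by
          rw [hWu, Finset.mem_filter]
          exact ⟨Finset.mem_univ _, not_lt.mp h5⟩
        exact h4.1 (Finset.mem_image.mpr ⟨x, h6, rfl⟩)
      · by_contra h5
        have h6 : x ∈ Wv := by
          rw [hWv, Finset.mem_filter]
          exact ⟨Finset.mem_univ _, not_lt.mp h5⟩
        exact h4.2 (Finset.mem_image.mpr ⟨x, h6, rfl⟩)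
    have h4 : ((univ.filter (fun x => G.degree x ∉
        (Wu.image (fun x => G.degree x) ∪ Wv.image (fun x => G.degree x)))).card : ℝ) ≤
        ((univ.filter (fun x => r < |α x - u| ∧ r < |α x - v|)).card : ℝ) := by
      exact_mod_cast Finset.card_le_card h3
    refine h4.trans ?_
    have h5 := huv r hr0
    rw [hr2] at h5
    set w : ℝ := ((univ.filter (fun x => r < |α x - u| ∧ r < |α x - v|)).card : ℝ) with hw
    have h6 : (4 * (K / δ)) * w ≤ (4 * (K / δ)) * (δ * Fintype.card V) := by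
      calc (4 * (K / δ)) * w = w * (4 * (K / δ)) := by ring
        _ ≤ 4 * K * Fintype.card V := h5
        _ = (4 * (K / δ)) * (δ * Fintype.card V) := by field_simp
    exact le_of_mul_le_mul_left h6 (by positivity)

/-- part (b) follows from part (a) -/
lemma partB {n : ℕ} {K : ℝ} (hK : 0 < K) (hn : 0 < n) (hcard : Fintype.card V = n)
    (hA : ∀ δ : ℝ, 0 < δ → ∃ D : Finset ℕ, D.card ≤ 2 + 2 * ⌊4 * √(K / δ)⌋₊ ∧
      ((univ.filter (fun x => G.degree x ∉ D)).card : ℝ) ≤ δ * n) :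
    ((univ.image (fun x => G.degree x)).card : ℝ) ≤ 2 + 8 * (K * n) ^ (1 / 3 : ℝ) := by
  have hn' : (0 : ℝ) < n := by exact_mod_cast hn
  set z : ℝ := (K * n) ^ (1 / 3 : ℝ) with hz
  have hKn : 0 < K * n := mul_pos hK hn'
  have hz0 : 0 < z := Real.rpow_pos_of_pos hKn _
  have hz3 : z ^ 3 = K * n := by
    rw [hz, ← Real.rpow_natCast, ← Real.rpow_mul hKn.le]
    norm_num
  obtain ⟨D, hD1, hD2⟩ := hA (5 / 2 * z / n) (by positivity)
  have h1 : univ.image (fun x => G.degree x) ⊆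
      D ∪ (univ.filter (fun x => G.degree x ∉ D)).image (fun x => G.degree x) := by
    intro d hd
    obtain ⟨x, _, rfl⟩ := Finset.mem_image.mp hd
    by_cases hx : G.degree x ∈ D
    · exact Finset.mem_union_left _ hx
    · exact Finset.mem_union_right _ (Finset.mem_image.mpr ⟨x, by simp [hx], rfl⟩)
  have h2 : (univ.image (fun x => G.degree x)).card ≤
      D.card + (univ.filter (fun x => G.degree x ∉ D)).card :=
    (Finset.card_le_card h1).trans ((Finset.card_union_le _ _).trans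
      (Nat.add_le_add_left Finset.card_image_le _))
  have h3 : ((univ.image (fun x => G.degree x)).card : ℝ) ≤
      D.card + (univ.filter (fun x => G.degree x ∉ D)).card := by exact_mod_cast h2
  have h4 : (D.card : ℝ) ≤ 2 + 2 * (4 * √(K / (5 / 2 * z / n))) := by
    have h5 : (D.card : ℝ) ≤ 2 + 2 * (⌊4 * √(K / (5 / 2 * z / n))⌋₊ : ℝ) := by exact_mod_cast hD1
    have h6 : (⌊4 * √(K / (5 / 2 * z / n))⌋₊ : ℝ) ≤ 4 * √(K / (5 / 2 * z / n)) :=
      Nat.floor_le (by positivity)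
    linarith
  have h5 : 5 / 2 * z / (n : ℝ) * n = 5 / 2 * z := by field_simp
  rw [h5] at hD2
  have h6 : K / (5 / 2 * z / n) = z ^ 2 * (2 / 5) := by
    have : K = z ^ 3 / n := by rw [hz3]; field_simp
    rw [this]; field_simp
  have h7 : √(K / (5 / 2 * z / n)) ≤ z * (16 / 25) := by
    rw [h6]
    apply Real.sqrt_le_iff.mpr
    constructor
    · positivity
    · nlinarith [pow_pos hz0 2]
  linarith

/-- part (c), nonregular graphs with positive second eigenvalue -/
lemma partC (h : Dat G T θ0 θ1 θ2 α) (hreg : ¬ ∃ d, G.IsRegularOfDegree d) (h1 : 0 < θ1) :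
    ((univ.image (fun x => G.degree x)).card : ℝ) ≤ 1 + 2 * √((θ1 + 1) * (-θ2)) := by
  have hθ2 := theta2_le h
  set w : ℝ := √((θ1 + 1) * (-θ2)) with hw
  have hw2 : w ^ 2 = (θ1 + 1) * (-θ2) := Real.sq_sqrt (mul_nonneg (by linarith) (by linarith))
  have hw0 : 0 ≤ w := Real.sqrt_nonneg _
  have hw1 : 1 ≤ w := by
    rw [hw]
    apply Real.le_sqrt_of_sq_le
    nlinarith
  set A := univ.filter (fun x => α x < w) with hA
  set B := univ.filter (fun x => ¬ α x < w) with hB
  have hAc : (A.image α).card ≤ ⌊w - 1⌋₊ + 1 := by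
    refine window_card _ (sep_img h hreg h1 _) 1 (w - 1) (by linarith) ?_
    intro a ha
    obtain ⟨x, hx, rfl⟩ := Finset.mem_image.mp ha
    rw [hA, Finset.mem_filter] at hx
    exact ⟨h.one_le hreg x, by linarith [hx.2]⟩
  have hBc : (B.image α).card ≤ ⌊w⌋₊ + 1 := by
    rcases B.eq_empty_or_nonempty with hBe | hBne
    · rw [hBe]; simp
    · obtain ⟨x0, hx0, hmin⟩ := Finset.exists_min_image B α hBne
      refine window_card _ (sep_img h hreg h1 _) (α x0) w hw0 ?_
      intro a ha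
      obtain ⟨x, hx, rfl⟩ := Finset.mem_image.mp ha
      refine ⟨hmin x hx, ?_⟩
      have h3 := gap h h1.le (by linarith) x0 x
      rw [hB, Finset.mem_filter] at hx0
      have h4 : w ≤ α x0 := not_lt.mp hx0.2
      have h5 : w * (α x - α x0) ≤ w * w := by
        calc w * (α x - α x0) ≤ α x0 * (α x - α x0) :=
              mul_le_mul_of_nonneg_right h4 (sub_nonneg.mpr (hmin x hx))
          _ ≤ (θ1 + 1) * (-θ2) := h3
          _ = w * w := by rw [← hw2]; ring
      have h6 := le_of_mul_le_mul_left h5 (by linarith)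
      linarith
  have h2 : univ.image (fun x => G.degree x) ⊆
      A.image (fun x => G.degree x) ∪ B.image (fun x => G.degree x) := by
    intro d hd
    obtain ⟨x, _, rfl⟩ := Finset.mem_image.mp hd
    by_cases hx : α x < w
    · exact Finset.mem_union_left _ (Finset.mem_image.mpr ⟨x, by rw [hA]; simp [hx], rfl⟩)
    · have h6 : x ∈ B := by
        rw [hB, Finset.mem_filter]
        exact ⟨Finset.mem_univ _, hx⟩
      exact Finset.mem_union_right _ (Finset.mem_image.mpr ⟨x, h6, rfl⟩)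
  have h3 : (univ.image (fun x => G.degree x)).card ≤ (⌊w - 1⌋₊ + 1) + (⌊w⌋₊ + 1) :=
    (Finset.card_le_card h2).trans ((Finset.card_union_le _ _).trans
      (Nat.add_le_add ((img h A).trans hAc) ((img h B).trans hBc)))
  have h4 : ((univ.image (fun x => G.degree x)).card : ℝ) ≤
      ((⌊w - 1⌋₊ : ℝ) + 1) + ((⌊w⌋₊ : ℝ) + 1) := by exact_mod_cast h3
  have h5 : (⌊w - 1⌋₊ : ℝ) ≤ w - 1 := Nat.floor_le (by linarith)
  have h6 : (⌊w⌋₊ : ℝ) ≤ w := Nat.floor_le hw0
  linarith

/-- part (d) -/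
lemma partD (h : Dat G T θ0 θ1 θ2 α) :
    (θ1 - θ2) ^ 2 / (θ0 - θ2) ≤ 4 + (θ1 + θ2) ^ 2 / θ0 := by
  obtain ⟨hE, _⟩ := alg_apply h
  have hθ2 := theta2_le h
  have h0 := h.h0
  have h01 := h.h01
  have hn : (0 : ℝ) < Fintype.card V := by
    have := h.conn.nonempty
    exact_mod_cast Fintype.card_pos
  have hT0 : 0 ≤ θ0 + θ1 * θ2 := by
    have h4 : 0 ≤ (θ0 - θ1) * (θ0 - θ2) := mul_nonneg (by linarith) (by linarith)
    exact nonneg_of_mul_nonneg_right (h4.trans hE) hn
  have h1 : 4 + (θ1 + θ2) ^ 2 / θ0 = (4 * θ0 + (θ1 + θ2) ^ 2) / θ0 := by field_simp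
  rw [h1]
  apply div_le_div₀
  · positivity
  · nlinarith
  · exact h0
  · linarith

/-- part (e): the absolute bound gives `K ≤ 20 √n` -/
lemma partE (h : Dat G T θ0 θ1 θ2 α) (hreg : ¬ ∃ d, G.IsRegularOfDegree d) (h1 : 0 < θ1) :
    (θ1 - θ2) ^ 2 / (θ0 - θ2) ≤ 20 * √(Fintype.card V : ℝ) := by
  obtain ⟨hE, _⟩ := alg_apply h
  have hθ2 := theta2_le h
  have h0 := h.h0
  have hn : (0 : ℝ) < Fintype.card V := by
    have := h.conn.nonempty
    exact_mod_cast Fintype.card_pos
  have habs := VB.abs_bound h hreg h1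
  have hdeg : ∑ x, (G.degree x : ℝ) ≤ Fintype.card V * θ0 := by
    rw [Finset.sum_congr rfl fun x _ => h.diag x, Finset.sum_sub_distrib, norm_sq h,
      Finset.sum_const, Finset.card_univ, nsmul_eq_mul]
    linarith
  have hdeg0 : 0 ≤ ∑ x, (G.degree x : ℝ) := Finset.sum_nonneg fun x _ => Nat.cast_nonneg _
  set M : ℝ := max θ1 (-θ2) with hM
  set n : ℝ := (Fintype.card V : ℝ) with hnn
  have hM1 : θ1 ≤ M := le_max_left _ _
  have hM2 : -θ2 ≤ M := le_max_right _ _
  have h2 : M ^ 4 * n ≤ 24 * (n * θ0) ^ 2 :=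
    habs.trans (mul_le_mul_of_nonneg_left (pow_le_pow_left₀ hdeg0 hdeg 2) (by norm_num))
  have h3 : M ^ 4 ≤ 24 * n * θ0 ^ 2 := by
    have : n * M ^ 4 ≤ n * (24 * n * θ0 ^ 2) := by nlinarith
    exact le_of_mul_le_mul_left this hn
  have hs : √n ^ 2 = n := Real.sq_sqrt hn.le
  have hs0 : 0 ≤ √n := Real.sqrt_nonneg _
  have h4 : M ^ 2 ≤ 5 * √n * θ0 := by
    apply le_of_sq_le_sq _ (by positivity)
    calc (M ^ 2) ^ 2 = M ^ 4 := by ring
      _ ≤ 24 * n * θ0 ^ 2 := h3
      _ ≤ 25 * n * θ0 ^ 2 := by nlinarith [mul_pos hn (pow_pos h0 2)]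
      _ = (5 * √n * θ0) ^ 2 := by rw [mul_pow, mul_pow, hs]; ring
  have h5 : (θ1 - θ2) ^ 2 ≤ 20 * √n * θ0 := by
    have h6 : (θ1 - θ2) ^ 2 ≤ (2 * M) ^ 2 := by
      apply pow_le_pow_left₀ (by linarith)
      linarith
    nlinarith
  rw [div_le_iff₀ (by linarith)]
  refine h5.trans ?_
  have : 0 ≤ 20 * √n := by positivity
  nlinarith

end TV
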