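import Mathlib
import Pool.Agent.TV.Win

set_option autoImplicit false
set_option linter.unusedSectionVars false
set_option linter.unusedVariables false

/-!
# Two graphs with the same eigenvalues: the valencies nearly agree

`n` vertices, `m = θ0 - θ2`, `y = θ0 - θ1`, `c = θ1 (-θ2 - 1)`, `D = θ1 - θ2`.
-/

namespace TV

open Finset TE TS

/-- the two-valued model: `((U + s)/2)²` on `B`, `((U - s)/2)²` outside -/
noncomputable def wt {V : Type*} [DecidableEq V] (U s : ℝ) (B : Finset V) (x : V) : ℝ :=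
  if x ∈ B then ((U + s) / 2) ^ 2 else ((U - s) / 2) ^ 2

/-- what is known about the valencies `f` of one graph -/
structure Md {V : Type*} [Fintype V] [DecidableEq V] (f : V → ℝ) (T m y c D U s : ℝ)
    (B : Finset V) : Prop where
  U0 : 0 < U
  s0 : 0 ≤ s
  ss : s ^ 2 = U ^ 2 - 4 * c
  lo : m * y + c * (Fintype.card V : ℝ) ≤ m * U ^ 2
  hi : m ^ 2 * U ^ 2 ≤ y * (m * y + (c + D) * (Fintype.card V : ℝ))
  En : (Fintype.card V : ℝ) * (y - c) - m * y ≤ (Fintype.card V : ℝ) * s ^ 2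
  ge : ∀ x, T ≤ f x
  tot : ∑ x, f x = m * y + (Fintype.card V : ℝ) * T
  l1 : ∑ x, |f x - (wt U s B x + T)| ≤ 8 * D * (Fintype.card V : ℝ)

/-! ### real algebra for a pair -/

section real

variable {n m y c D U s U' s' : ℝ}

lemma E_nonneg (hD : 0 < D) (hDm : D = m - y) (hm : 0 < m)
    (lo : m * y + c * n ≤ m * U ^ 2) (hi : m ^ 2 * U ^ 2 ≤ y * (m * y + (c + D) * n)) :
    0 ≤ n * (y - c) - m * y := by
  have h1 : m * (m * y + c * n) ≤ y * (m * y + (c + D) * n) := by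
    calc m * (m * y + c * n) ≤ m * (m * U ^ 2) := mul_le_mul_of_nonneg_left lo hm.le
      _ = m ^ 2 * U ^ 2 := by ring
      _ ≤ _ := hi
  have h2 : 0 ≤ D * (n * (y - c) - m * y) := by
    have : D * (n * (y - c) - m * y) = y * (m * y + (c + D) * n) - m * (m * y + c * n) := by
      rw [hDm]; ring
    rw [this]; linarith
  exact nonneg_of_mul_nonneg_right h2 hD

lemma Z_diff (hDm : D = m - y) (hm : 0 < m)
    (lo : m * y + c * n ≤ m * U ^ 2) (hi : m ^ 2 * U ^ 2 ≤ y * (m * y + (c + D) * n))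
    (lo' : m * y + c * n ≤ m * U' ^ 2) (hi' : m ^ 2 * U' ^ 2 ≤ y * (m * y + (c + D) * n)) :
    m ^ 2 * |U ^ 2 - U' ^ 2| ≤ D * (n * (y - c) - m * y) := by
  have e : D * (n * (y - c) - m * y) = y * (m * y + (c + D) * n) - m * (m * y + c * n) := by
    rw [hDm]; ring
  have h1 : m * (m * y + c * n) ≤ m ^ 2 * U ^ 2 := by
    calc m * (m * y + c * n) ≤ m * (m * U ^ 2) := mul_le_mul_of_nonneg_left lo hm.le
      _ = m ^ 2 * U ^ 2 := by ring
  have h2 : m * (m * y + c * n) ≤ m ^ 2 * U' ^ 2 := by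
    calc m * (m * y + c * n) ≤ m * (m * U' ^ 2) := mul_le_mul_of_nonneg_left lo' hm.le
      _ = m ^ 2 * U' ^ 2 := by ring
  rw [e]
  rcases abs_cases (U ^ 2 - U' ^ 2) with ⟨h3, _⟩ | ⟨h3, _⟩ <;> rw [h3] <;> nlinarith

lemma s_le_U (U0 : 0 < U) (s0 : 0 ≤ s) (hc : 0 ≤ c) (ss : s ^ 2 = U ^ 2 - 4 * c) : s ≤ U := by
  apply le_of_sq_le_sq _ U0.le
  linarith

lemma prod_diff (ss : s ^ 2 = U ^ 2 - 4 * c) (ss' : s' ^ 2 = U' ^ 2 - 4 * c) :
    (U * s - U' * s') * (U * s + U' * s') = (U ^ 2 - U' ^ 2) * (U ^ 2 + s' ^ 2) := by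
  have h1 : (U * s - U' * s') * (U * s + U' * s') = U ^ 2 * s ^ 2 - U' ^ 2 * s' ^ 2 := by ring
  rw [h1, ss, ss']; ring

/-- the large roots: `s |v² - v'²| ≤ U |U² - U'²|` -/
lemma big_root (hc : 0 ≤ c) (U0 : 0 < U) (s0 : 0 ≤ s) (ss : s ^ 2 = U ^ 2 - 4 * c)
    (U0' : 0 < U') (s0' : 0 ≤ s') (ss' : s' ^ 2 = U' ^ 2 - 4 * c) :
    s * |((U + s) / 2) ^ 2 - ((U' + s') / 2) ^ 2| ≤ U * |U ^ 2 - U' ^ 2| := by
  have hsU := s_le_U U0 s0 hc ss
  have hsU' := s_le_U U0' s0' hc ss'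
  rcases s0.lt_or_eq with hs | hs
  · have hpos : 0 < U * s + U' * s' := by
      have := mul_pos U0 hs
      have := mul_nonneg U0'.le s0'
      linarith
    have h1 : s * |U * s - U' * s'| ≤ U * |U ^ 2 - U' ^ 2| := by
      have h2 : |U * s - U' * s'| * (U * s + U' * s') = |U ^ 2 - U' ^ 2| * (U ^ 2 + s' ^ 2) := by
        rw [← abs_of_pos hpos, ← abs_mul, prod_diff ss ss', abs_mul,
          abs_of_nonneg (show (0 : ℝ) ≤ U ^ 2 + s' ^ 2 by positivity)]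
      have h3 : s * (U ^ 2 + s' ^ 2) ≤ U * (U * s + U' * s') := by
        have h4 : s * s' ≤ U * U' := mul_le_mul hsU hsU' s0' U0.le
        have h5 : 0 ≤ s' * (U * U' - s * s') := mul_nonneg s0' (by linarith)
        nlinarith
      have h4 : (s * |U * s - U' * s'|) * (U * s + U' * s') ≤
          (U * |U ^ 2 - U' ^ 2|) * (U * s + U' * s') := by
        calc (s * |U * s - U' * s'|) * (U * s + U' * s')
            = |U ^ 2 - U' ^ 2| * (s * (U ^ 2 + s' ^ 2)) := by rw [mul_assoc, h2]; ring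
          _ ≤ |U ^ 2 - U' ^ 2| * (U * (U * s + U' * s')) :=
              mul_le_mul_of_nonneg_left h3 (abs_nonneg _)
          _ = _ := by ring
      exact le_of_mul_le_mul_right h4 hpos
    have h5 : ((U + s) / 2) ^ 2 - ((U' + s') / 2) ^ 2
        = ((U ^ 2 - U' ^ 2) + (U * s - U' * s')) / 2 := by
      have : ((U + s) / 2) ^ 2 - ((U' + s') / 2) ^ 2
        = (U ^ 2 - U' ^ 2 + (s ^ 2 - s' ^ 2)) / 4 + (U * s - U' * s') / 2 := by ring
      rw [this, ss, ss']; ring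
    rw [h5, abs_div, abs_of_pos (show (0 : ℝ) < 2 by norm_num)]
    have h6 := abs_add_le (U ^ 2 - U' ^ 2) (U * s - U' * s')
    have h7 : s * |U ^ 2 - U' ^ 2| ≤ U * |U ^ 2 - U' ^ 2| :=
      mul_le_mul_of_nonneg_right hsU (abs_nonneg _)
    have h8 : s * |U ^ 2 - U' ^ 2 + (U * s - U' * s')| ≤
        s * (|U ^ 2 - U' ^ 2| + |U * s - U' * s'|) := mul_le_mul_of_nonneg_left h6 s0
    linarith
  · rw [← hs]
    have := mul_nonneg U0.le (abs_nonneg (U ^ 2 - U' ^ 2))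
    linarith

/-- auxiliary: `E u² ≤ 4 m² U s` -/
lemma small_aux {E : ℝ} (hn : 0 < n) (hm : 0 < m) (hy : 0 < y) (hc : 0 ≤ c) (hcm : c ≤ m)
    (U0 : 0 < U) (s0 : 0 ≤ s) (ss : s ^ 2 = U ^ 2 - 4 * c)
    (lo : m * y + c * n ≤ m * U ^ 2) (hE0 : 0 ≤ E) (hE : E ≤ n * s ^ 2) (hEy : E ≤ n * y) :
    E * ((U - s) / 2) ^ 2 ≤ 4 * m ^ 2 * (U * s) := by
  set r : ℝ := √y with hr
  have hr2 : r ^ 2 = y := Real.sq_sqrt hy.le
  have hr0 : 0 < r := Real.sqrt_pos.mpr hy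
  have hEs : E ≤ n * s * r := by
    apply le_of_sq_le_sq _ (by positivity)
    calc E ^ 2 = E * E := by ring
      _ ≤ (n * s ^ 2) * (n * y) := mul_le_mul hE hEy hE0 (by positivity)
      _ = (n * s * r) ^ 2 := by rw [mul_pow, mul_pow, hr2]; ring
  have hUr : r ≤ U := by
    apply le_of_sq_le_sq _ U0.le
    rw [hr2]
    have h1 : m * y ≤ m * U ^ 2 := by nlinarith [mul_nonneg hc hn.le]
    exact le_of_mul_le_mul_left h1 hm
  have hcn : c * n ≤ m * U ^ 2 := by nlinarith [mul_pos hm hy]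
  have hsU := s_le_U U0 s0 hc ss
  have huU : ((U - s) / 2) * U ≤ 2 * c := by
    have h1 : (U - s) * (U + s) = 4 * c := by
      have : (U - s) * (U + s) = U ^ 2 - s ^ 2 := by ring
      rw [this, ss]; ring
    nlinarith [mul_nonneg (sub_nonneg.mpr hsU) s0]
  have hu0 : 0 ≤ (U - s) / 2 := by linarith
  have hu2 : ((U - s) / 2) ^ 2 * U ^ 2 ≤ 4 * c ^ 2 := by
    have h1 : (((U - s) / 2) * U) ^ 2 ≤ (2 * c) ^ 2 :=
      pow_le_pow_left₀ (mul_nonneg hu0 U0.le) huU 2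
    nlinarith
  have hkey : c ^ 2 * (n * s * r) ≤ m ^ 2 * U ^ 3 * s := by
    have h1 : c * n * r ≤ m * U ^ 3 := by
      calc c * n * r ≤ (m * U ^ 2) * U := mul_le_mul hcn hUr hr0.le (by positivity)
        _ = m * U ^ 3 := by ring
    have h2 : c * (c * n * r) ≤ m * (m * U ^ 3) :=
      mul_le_mul hcm h1 (by positivity) hm.le
    have h3 : (c * (c * n * r)) * s ≤ (m * (m * U ^ 3)) * s := mul_le_mul_of_nonneg_right h2 s0
    nlinarith
  have h4 : (E * ((U - s) / 2) ^ 2) * U ^ 2 ≤ (4 * m ^ 2 * (U * s)) * U ^ 2 := by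
    calc (E * ((U - s) / 2) ^ 2) * U ^ 2 = E * (((U - s) / 2) ^ 2 * U ^ 2) := by ring
      _ ≤ E * (4 * c ^ 2) := mul_le_mul_of_nonneg_left hu2 hE0
      _ = 4 * (c ^ 2 * E) := by ring
      _ ≤ 4 * (c ^ 2 * (n * s * r)) := by
          have := mul_le_mul_of_nonneg_left hEs (sq_nonneg c)
          linarith
      _ ≤ 4 * (m ^ 2 * U ^ 3 * s) := by linarith
      _ = _ := by ring
  exact le_of_mul_le_mul_right h4 (pow_pos U0 2)

/-- the small roots: `|u² - u'²| ≤ 4 D` -/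
lemma small_root (hn : 0 < n) (hm : 0 < m) (hy : 0 < y) (hc : 0 ≤ c) (hD : 0 < D)
    (hDm : D = m - y)
    (U0 : 0 < U) (s0 : 0 ≤ s) (ss : s ^ 2 = U ^ 2 - 4 * c)
    (U0' : 0 < U') (s0' : 0 ≤ s') (ss' : s' ^ 2 = U' ^ 2 - 4 * c)
    (lo : m * y + c * n ≤ m * U ^ 2) (hi : m ^ 2 * U ^ 2 ≤ y * (m * y + (c + D) * n))
    (lo' : m * y + c * n ≤ m * U' ^ 2) (hi' : m ^ 2 * U' ^ 2 ≤ y * (m * y + (c + D) * n))
    (hE : n * (y - c) - m * y ≤ n * s ^ 2) (hE' : n * (y - c) - m * y ≤ n * s' ^ 2) :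
    |((U - s) / 2) ^ 2 - ((U' - s') / 2) ^ 2| ≤ 4 * D := by
  have hE0 := E_nonneg hD hDm hm lo hi
  have hZ := Z_diff hDm hm lo hi lo' hi'
  set E : ℝ := n * (y - c) - m * y with hEdef
  have hcy : c ≤ y := by
    by_contra hcon
    push Not at hcon
    have h1 := mul_pos hn (sub_pos.mpr hcon)
    have h2 := mul_pos hm hy
    nlinarith
  have hcm : c ≤ m := by linarith
  have hEy : E ≤ n * y := by
    have := mul_nonneg hc hn.le
    have := mul_pos hm hy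
    nlinarith
  have a1 := small_aux hn hm hy hc hcm U0 s0 ss lo hE0 hE hEy
  have a2 := small_aux hn hm hy hc hcm U0' s0' ss' lo' hE0 hE' hEy
  have hid : (((U - s) / 2) ^ 2 - ((U' - s') / 2) ^ 2) * (U * s + U' * s')
      = -((U ^ 2 - U' ^ 2) * (((U - s) / 2) ^ 2 + ((U' - s') / 2) ^ 2)) := by
    have h1 : ((U - s) / 2) ^ 2 = (U ^ 2 - U * s) / 2 - c := by
      have : ((U - s) / 2) ^ 2 = (U ^ 2 + s ^ 2 - 2 * (U * s)) / 4 := by ring
      rw [this, ss]; ring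
    have h2 : ((U' - s') / 2) ^ 2 = (U' ^ 2 - U' * s') / 2 - c := by
      have : ((U' - s') / 2) ^ 2 = (U' ^ 2 + s' ^ 2 - 2 * (U' * s')) / 4 := by ring
      rw [this, ss']; ring
    rw [h1, h2]
    have h3 := prod_diff ss ss'
    rw [ss'] at h3
    linear_combination (-1 / 2 : ℝ) * h3
  have hsum0 : 0 ≤ U * s + U' * s' := add_nonneg (mul_nonneg U0.le s0) (mul_nonneg U0'.le s0')
  rcases hsum0.lt_or_eq with hpos | hzero
  · have h1 : |((U - s) / 2) ^ 2 - ((U' - s') / 2) ^ 2| * (U * s + U' * s')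
        = |U ^ 2 - U' ^ 2| * (((U - s) / 2) ^ 2 + ((U' - s') / 2) ^ 2) := by
      rw [← abs_of_pos hpos, ← abs_mul, hid, abs_neg, abs_mul,
        abs_of_nonneg (show (0 : ℝ) ≤ ((U - s) / 2) ^ 2 + ((U' - s') / 2) ^ 2 by positivity)]
    have h2 : (|((U - s) / 2) ^ 2 - ((U' - s') / 2) ^ 2| * (U * s + U' * s')) * m ^ 2 ≤
        (4 * D * (U * s + U' * s')) * m ^ 2 := by
      rw [h1]
      calc |U ^ 2 - U' ^ 2| * (((U - s) / 2) ^ 2 + ((U' - s') / 2) ^ 2) * m ^ 2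
          = (m ^ 2 * |U ^ 2 - U' ^ 2|) * (((U - s) / 2) ^ 2 + ((U' - s') / 2) ^ 2) := by ring
        _ ≤ (D * E) * (((U - s) / 2) ^ 2 + ((U' - s') / 2) ^ 2) :=
            mul_le_mul_of_nonneg_right hZ (by positivity)
        _ = D * (E * ((U - s) / 2) ^ 2 + E * ((U' - s') / 2) ^ 2) := by ring
        _ ≤ D * (4 * m ^ 2 * (U * s) + 4 * m ^ 2 * (U' * s')) :=
            mul_le_mul_of_nonneg_left (add_le_add a1 a2) hD.le
        _ = _ := by ring
    have h3 := le_of_mul_le_mul_right h2 (pow_pos hm 2)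
    exact le_of_mul_le_mul_right h3 hpos
  · have hs : s = 0 := by
      by_contra hne
      have : 0 < s := lt_of_le_of_ne s0 (Ne.symm hne)
      have := mul_pos U0 this
      have := mul_nonneg U0'.le s0'
      linarith
    have hs' : s' = 0 := by
      by_contra hne
      have : 0 < s' := lt_of_le_of_ne s0' (Ne.symm hne)
      have := mul_pos U0' this
      have := mul_nonneg U0.le s0
      linarith
    have h4 : U ^ 2 = U' ^ 2 := by
      rw [hs] at ss; rw [hs'] at ss'; linarith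
    rw [hs, hs']
    have h5 : ((U - 0) / 2) ^ 2 - ((U' - 0) / 2) ^ 2 = (U ^ 2 - U' ^ 2) / 4 := by ring
    rw [h5, h4, sub_self]
    simp only [zero_div, abs_zero]
    linarith

end real

end TV
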