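import Mathlib
import Pool.Agent.TV.Pair

set_option autoImplicit false
set_option linter.unusedSectionVars false
set_option linter.unusedVariables false

/-!
# Matching the vertices of two graphs with the same eigenvalues
-/

namespace TV

open Finset TE TS

variable {V : Type*} [Fintype V] [DecidableEq V]

lemma exists_perm (B B' : Finset V) (h : B.card ≤ B'.card) :
    ∃ σ : Equiv.Perm V, ∀ x ∈ B, σ x ∈ B' := by
  obtain ⟨B'', hsub, hcard⟩ := Finset.exists_subset_card_eq h
  have e : {x // x ∈ B} ≃ {x // x ∈ B''} := Finset.equivOfCardEq hcard.symm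
  refine ⟨e.extendSubtype, fun x hx => hsub (e.extendSubtype_mem x hx)⟩

lemma sum_wt (U s : ℝ) (B : Finset V) :
    ∑ x, wt U s B x = (Fintype.card V : ℝ) * ((U - s) / 2) ^ 2 + B.card * (U * s) := by
  have h1 : ∀ x, wt U s B x = ((U - s) / 2) ^ 2 + (if x ∈ B then U * s else 0) := by
    intro x; unfold wt; split_ifs
    · ring
    · ring
  rw [Finset.sum_congr rfl fun x _ => h1 x, Finset.sum_add_distrib]
  simp

variable {f g : V → ℝ} {T m y c D U s U' s' : ℝ} {B B' : Finset V}

lemma Md.count (W : Md f T m y c D U s B) :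
    |m * y - (Fintype.card V : ℝ) * ((U - s) / 2) ^ 2 - B.card * (U * s)| ≤
      8 * D * (Fintype.card V : ℝ) := by
  have h1 : m * y - (Fintype.card V : ℝ) * ((U - s) / 2) ^ 2 - B.card * (U * s)
      = ∑ x, (f x - (wt U s B x + T)) := by
    rw [Finset.sum_sub_distrib, Finset.sum_add_distrib, W.tot, sum_wt]
    simp only [Finset.sum_const, Finset.card_univ, nsmul_eq_mul]
    ring
  rw [h1]
  exact (Finset.abs_sum_le_sum_abs _ _).trans W.l1

lemma Md.big (W : Md f T m y c D U s B) (W' : Md g T m y c D U' s' B') (hy : 0 < y)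
    (hD : 0 < D) (hDm : D = m - y) (hc : 0 ≤ c) (hn : (0 : ℝ) < Fintype.card V)
    (hDn : D * (Fintype.card V : ℝ) ≤ m ^ 2) :
    (B.card : ℝ) * |((U + s) / 2) ^ 2 - ((U' + s') / 2) ^ 2| ≤ 9 * D * (Fintype.card V : ℝ) := by
  set n : ℝ := (Fintype.card V : ℝ) with hnn
  have hm : 0 < m := by linarith
  have hE0 := E_nonneg hD hDm hm W.lo W.hi
  have hZ := Z_diff hDm hm W.lo W.hi W'.lo W'.hi
  have hbig := big_root hc W.U0 W.s0 W.ss W'.U0 W'.s0 W'.ss
  have hcount := (abs_le.mp W.count).1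
  rw [← hnn] at hcount
  have hE := W.En
  rw [← hnn] at hE
  set k : ℝ := (B.card : ℝ) with hk
  have hk0 : 0 ≤ k := Nat.cast_nonneg _
  set A : ℝ := |((U + s) / 2) ^ 2 - ((U' + s') / 2) ^ 2| with hA
  have hA0 : 0 ≤ A := abs_nonneg _
  have hkUs : k * (U * s) ≤ 9 * m ^ 2 := by
    have h1 : 0 ≤ n * ((U - s) / 2) ^ 2 := by positivity
    have h2 : m * y ≤ m ^ 2 := by nlinarith
    nlinarith
  rcases W.s0.lt_or_eq with hs | hs
  · have h1 : (s ^ 2 * m ^ 2) * (k * A) ≤ (s ^ 2 * m ^ 2) * (9 * D * n) := by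
      calc (s ^ 2 * m ^ 2) * (k * A) = (s * m ^ 2 * k) * (s * A) := by ring
        _ ≤ (s * m ^ 2 * k) * (U * |U ^ 2 - U' ^ 2|) :=
            mul_le_mul_of_nonneg_left hbig (by positivity)
        _ = (k * (U * s)) * (m ^ 2 * |U ^ 2 - U' ^ 2|) := by ring
        _ ≤ (k * (U * s)) * (D * (n * (y - c) - m * y)) :=
            mul_le_mul_of_nonneg_left hZ (mul_nonneg hk0 (mul_nonneg W.U0.le W.s0))
        _ ≤ (9 * m ^ 2) * (D * (n * (y - c) - m * y)) :=
            mul_le_mul_of_nonneg_right hkUs (mul_nonneg hD.le hE0)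
        _ ≤ (9 * m ^ 2) * (D * (n * s ^ 2)) := by
            apply mul_le_mul_of_nonneg_left _ (by positivity)
            exact mul_le_mul_of_nonneg_left hE hD.le
        _ = _ := by ring
    exact le_of_mul_le_mul_left h1 (by positivity)
  · have h1 : n * (y - c) - m * y = 0 := by
      apply le_antisymm _ hE0
      rw [← hs] at hE
      simpa using hE
    rw [h1, mul_zero] at hZ
    have h2 : |U ^ 2 - U' ^ 2| = 0 := by
      have h3 : m ^ 2 * |U ^ 2 - U' ^ 2| = 0 :=
        le_antisymm hZ (mul_nonneg (by positivity) (abs_nonneg _))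
      exact (mul_eq_zero.mp h3).resolve_left (by positivity)
    have h3 : U ^ 2 = U' ^ 2 := by
      have := abs_eq_zero.mp h2; linarith
    have h4 : s' = 0 := by
      have e1 := W.ss
      have e2 := W'.ss
      rw [← hs] at e1
      have : s' ^ 2 = 0 := by rw [e2, ← h3, ← e1]; ring
      exact pow_eq_zero_iff (two_ne_zero) |>.mp this
    have h5 : A = 0 := by
      rw [hA, ← hs, h4]
      have : ((U + 0) / 2) ^ 2 - ((U' + 0) / 2) ^ 2 = (U ^ 2 - U' ^ 2) / 4 := by ring
      rw [this, h3]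
      simp
    rw [h5, mul_zero]
    positivity

lemma Md.pair (W : Md f T m y c D U s B) (W' : Md g T m y c D U' s' B') (hy : 0 < y)
    (hD : 0 < D) (hDm : D = m - y) (hc : 0 ≤ c) (hn : (0 : ℝ) < Fintype.card V)
    (hDn : D * (Fintype.card V : ℝ) ≤ m ^ 2) (hB : B.card ≤ B'.card) :
    ∃ σ : Equiv.Perm V, ∑ x, |f x - g (σ x)| ≤ 58 * D * (Fintype.card V : ℝ) := by
  have hm : 0 < m := by linarith
  obtain ⟨σ, hσ⟩ := exists_perm B B' hB
  refine ⟨σ, ?_⟩
  have hA := W.big W' hy hD hDm hc hn hDn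
  have hb := small_root hn hm hy hc hD hDm W.U0 W.s0 W.ss W'.U0 W'.s0 W'.ss W.lo W.hi W'.lo W'.hi
    W.En W'.En
  have hc1 := (abs_le.mp W.count).2
  have hc2 := (abs_le.mp W'.count).1
  have hl1 := W.l1
  have hl2 := W'.l1
  set n : ℝ := (Fintype.card V : ℝ) with hnn
  set a : ℝ := ((U + s) / 2) ^ 2 with ha
  set b : ℝ := ((U - s) / 2) ^ 2 with hbb
  set a' : ℝ := ((U' + s') / 2) ^ 2 with ha'
  set b' : ℝ := ((U' - s') / 2) ^ 2 with hbb'
  have hab : U * s = a - b := by rw [ha, hbb]; ring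
  have hab' : U' * s' = a' - b' := by rw [ha', hbb']; ring
  have hab0 : 0 ≤ a' - b' := by rw [← hab']; exact mul_nonneg W'.U0.le W'.s0
  have hpt : ∀ x, |wt U s B x - wt U' s' B' (σ x)| ≤
      |b - b'| + (wt U' s' B' (σ x) - b') + (if x ∈ B then |a - a'| - |b - b'| - (a' - b') else 0) := by
    intro x
    by_cases hx : x ∈ B
    · have h1 : wt U s B x = a := by unfold wt; rw [if_pos hx]
      have h2 : wt U' s' B' (σ x) = a' := by unfold wt; rw [if_pos (hσ x hx)]
      rw [h1, h2, if_pos hx]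
      linarith
    · have h1 : wt U s B x = b := by unfold wt; rw [if_neg hx]
      rw [h1, if_neg hx, add_zero]
      have h3 : 0 ≤ wt U' s' B' (σ x) - b' := by
        unfold wt
        split_ifs
        · exact hab0
        · rw [← hbb', sub_self]
      have h4 : b - wt U' s' B' (σ x) = (b - b') + -(wt U' s' B' (σ x) - b') := by ring
      rw [h4]
      refine (abs_add_le _ _).trans ?_
      rw [abs_neg, abs_of_nonneg h3]
  have hsum : ∑ x, |wt U s B x - wt U' s' B' (σ x)| ≤ 42 * D * n := by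
    refine (Finset.sum_le_sum fun x _ => hpt x).trans ?_
    rw [Finset.sum_add_distrib, Finset.sum_add_distrib, Finset.sum_sub_distrib]
    rw [Equiv.sum_comp σ (fun x => wt U' s' B' x), sum_wt]
    simp only [Finset.sum_const, Finset.card_univ, nsmul_eq_mul, Finset.sum_ite_mem,
      Finset.univ_inter]
    rw [← hnn, ← hbb', hab']
    rw [hab] at hc1
    rw [hab'] at hc2
    set k : ℝ := (B.card : ℝ) with hk
    set k' : ℝ := (B'.card : ℝ) with hk'
    have hk0 : 0 ≤ k := Nat.cast_nonneg _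
    have hkn : k ≤ n := by rw [hk, hnn]; exact_mod_cast Finset.card_le_univ B
    have e1 : |b - b'| * n ≤ 4 * D * n := mul_le_mul_of_nonneg_right hb hn.le
    have e2 : b - b' ≤ |b - b'| := le_abs_self _
    have e3 : a - a' ≤ |a - a'| := le_abs_self _
    have e4 : b' - b ≤ |b - b'| := by rw [abs_sub_comm]; exact le_abs_self _
    have e5 : n * (b - b') ≤ n * |b - b'| := mul_le_mul_of_nonneg_left e2 hn.le
    have e6 : k * (a - a') ≤ k * |a - a'| := mul_le_mul_of_nonneg_left e3 hk0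
    have e7 : k * (b' - b) ≤ k * |b - b'| := mul_le_mul_of_nonneg_left e4 hk0
    -- total = n|b-b'| + (n b' + k'(a'-b') - n b') + k (|a-a'| - |b-b'| - (a'-b'))
    nlinarith
  have hperm : ∑ x, |g (σ x) - (wt U' s' B' (σ x) + T)| = ∑ x, |g x - (wt U' s' B' x + T)| :=
    Equiv.sum_comp σ (fun x => |g x - (wt U' s' B' x + T)|)
  calc ∑ x, |f x - g (σ x)| ≤ ∑ x, (|f x - (wt U s B x + T)| + |wt U s B x - wt U' s' B' (σ x)|
        + |g (σ x) - (wt U' s' B' (σ x) + T)|) := by
        refine Finset.sum_le_sum fun x _ => ?_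
        have h1 : f x - g (σ x) = (f x - (wt U s B x + T)) + (wt U s B x - wt U' s' B' (σ x))
            + -(g (σ x) - (wt U' s' B' (σ x) + T)) := by ring
        rw [h1]
        refine (abs_add_le _ _).trans ?_
        rw [abs_neg]
        have := abs_add_le (f x - (wt U s B x + T)) (wt U s B x - wt U' s' B' (σ x))
        linarith
    _ = ∑ x, |f x - (wt U s B x + T)| + ∑ x, |wt U s B x - wt U' s' B' (σ x)|
        + ∑ x, |g x - (wt U' s' B' x + T)| := by
        rw [Finset.sum_add_distrib, Finset.sum_add_distrib, hperm]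
    _ ≤ 8 * D * n + 42 * D * n + 8 * D * n := by linarith
    _ = 58 * D * n := by ring

lemma Md.triv (W : Md f T m y c D U s B) (W' : Md g T m y c D U' s' B') (σ : Equiv.Perm V) :
    ∑ x, |f x - g (σ x)| ≤ 2 * (m * y) := by
  have h1 : ∀ x, |f x - g (σ x)| ≤ (f x - T) + (g (σ x) - T) := by
    intro x
    have e1 := W.ge x
    have e2 := W'.ge (σ x)
    rw [abs_le]; constructor <;> linarith
  refine (Finset.sum_le_sum fun x _ => h1 x).trans ?_
  rw [Finset.sum_add_distrib, Finset.sum_sub_distrib, Finset.sum_sub_distrib,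
    Equiv.sum_comp σ g, W.tot, W'.tot]
  simp only [Finset.sum_const, Finset.card_univ, nsmul_eq_mul]
  linarith

/-- two models: the valencies nearly agree after a bijection -/
theorem Md.main (W : Md f T m y c D U s B) (W' : Md g T m y c D U' s' B') (hy : 0 < y)
    (hD : 0 < D) (hDm : D = m - y) (hc : 0 ≤ c) (hn : (0 : ℝ) < Fintype.card V) :
    ∃ σ : Equiv.Perm V, ∑ x, |f x - g (σ x)| ≤ 58 * D * (Fintype.card V : ℝ) ∧
      ∑ x, |f x - g (σ x)| ≤ 2 * (m * y) := by
  have hm : 0 < m := by linarith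
  rcases le_or_gt (D * (Fintype.card V : ℝ)) (m ^ 2) with hDn | hDn
  · rcases le_total B.card B'.card with hB | hB
    · obtain ⟨σ, hσ⟩ := W.pair W' hy hD hDm hc hn hDn hB
      exact ⟨σ, hσ, W.triv W' σ⟩
    · obtain ⟨σ, hσ⟩ := W'.pair W hy hD hDm hc hn hDn hB
      refine ⟨σ.symm, ?_, W.triv W' _⟩
      have h1 : ∑ x, |f x - g (σ.symm x)| = ∑ x, |g x - f (σ x)| := by
        rw [← Equiv.sum_comp σ (fun x => |f x - g (σ.symm x)|)]
        refine Finset.sum_congr rfl fun x _ => ?_
        rw [Equiv.symm_apply_apply, abs_sub_comm]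
      rw [h1]
      exact hσ
  · refine ⟨Equiv.refl V, ?_, W.triv W' _⟩
    refine (W.triv W' _).trans ?_
    have h2 : m * y ≤ m ^ 2 := by nlinarith
    have h3 := mul_pos hD hn
    nlinarith

end TV
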