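import Mathlib
import Pool.Agent.TV.Match

set_option autoImplicit false
set_option linter.unusedSectionVars false
set_option linter.unusedVariables false

/-!
# The two-valued model of the valencies of one graph
-/

namespace TV

open Finset TE TS

variable {V : Type*} [Fintype V] [DecidableEq V]
variable {G : SimpleGraph V} [DecidableRel G.Adj] {T θ0 θ1 θ2 : ℝ} {α : V → ℝ}

/-- the squared norm of the `θ1`-eigenvector -/
noncomputable def QQ (G : SimpleGraph V) [DecidableRel G.Adj] (α : V → ℝ) (θ0 θ1 θ2 : ℝ) : ℝ :=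
  ∑ x, pv G α θ0 θ2 θ1 x ^ 2

lemma norms (h : Dat G T θ0 θ1 θ2 α) :
    0 ≤ PP G α θ0 θ1 θ2 ∧ 0 ≤ QQ G α θ0 θ1 θ2 ∧
    PP G α θ0 θ1 θ2 = (θ1 - θ2) * ((∑ z, α z) ^ 2 / (θ0 - θ2) - (θ0 - θ2) * (θ0 - θ1)
      - (-(θ1 * θ2) - θ1) * Fintype.card V) ∧
    QQ G α θ0 θ1 θ2 = (θ1 - θ2) * ((θ0 - θ2) * (θ0 - θ1)
      + (-(θ1 * θ2) - θ1 + (θ1 - θ2)) * Fintype.card V - (∑ z, α z) ^ 2 / (θ0 - θ1)) := by
  have h01 := h.h01
  have h12 := h.h12
  have hsq1 := pv_sq h (a := θ1) (b := θ2) rfl rfl (by linarith)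
  have hsq2 := pv_sq h (a := θ2) (b := θ1) (add_comm _ _) (mul_comm _ _) h01
  rw [pv_sum h] at hsq1 hsq2
  refine ⟨Finset.sum_nonneg fun x _ => sq_nonneg _, Finset.sum_nonneg fun x _ => sq_nonneg _,
    ?_, ?_⟩
  · unfold PP; rw [hsq1]; ring
  · unfold QQ; rw [hsq2]; ring

/-- `m P + y Q = D² E` -/
lemma norm_id (h : Dat G T θ0 θ1 θ2 α) :
    (θ0 - θ2) * PP G α θ0 θ1 θ2 + (θ0 - θ1) * QQ G α θ0 θ1 θ2 = (θ1 - θ2) ^ 2 *
      ((Fintype.card V : ℝ) * (θ0 - θ1 - (-(θ1 * θ2) - θ1)) - (θ0 - θ2) * (θ0 - θ1)) := by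
  obtain ⟨_, _, hP, hQ⟩ := norms h
  have h1 : θ0 - θ2 ≠ 0 := by have := h.h01; have := h.h12; intro hh; linarith
  have h2 : θ0 - θ1 ≠ 0 := by have := h.h01; intro hh; linarith
  rw [hP, hQ]
  field_simp
  ring

lemma disc_low {n m y c U : ℝ} (hn : 0 < n) (hy : 0 < y) (hm : 0 < m) (hc : 0 ≤ c)
    (hE : 0 ≤ n * (y - c) - m * y) (hlo : m * y + c * n ≤ m * U ^ 2) :
    n * (y - c) - m * y ≤ n * (U ^ 2 - 4 * c) := by
  have hf : 0 ≤ c * n ^ 2 - 3 * c * n * m + m ^ 2 * y := by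
    rcases le_or_gt n m with hnm | hnm
    · have h3 : c * n ≤ 0 := by nlinarith
      have h4 : c = 0 := by
        rcases hc.lt_or_eq with h5 | h5
        · exfalso; nlinarith [mul_pos h5 hn]
        · exact h5.symm
      rw [h4]
      nlinarith [mul_pos (pow_pos hm 2) hy]
    · have h3 : 0 < n - m := sub_pos.mpr hnm
      have h4 : n * c ≤ y * (n - m) := by nlinarith
      have h5 : 0 ≤ (n - m) * (c * n ^ 2 - 3 * c * n * m + m ^ 2 * y) := by
        have h6 : (n - m) * (c * n ^ 2 - 3 * c * n * m + m ^ 2 * y)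
            = c * n * (n - 2 * m) ^ 2 + m ^ 2 * (y * (n - m) - n * c) := by ring
        rw [h6]
        have := mul_nonneg (mul_nonneg hc hn.le) (sq_nonneg (n - 2 * m))
        have := mul_nonneg (pow_pos hm 2).le (sub_nonneg.mpr h4)
        linarith
      exact nonneg_of_mul_nonneg_right h5 h3
  have h3 : m * (n * (y - c) - m * y) ≤ m * (n * (U ^ 2 - 4 * c)) := by
    have h4 : n * (m * y + c * n) ≤ n * (m * U ^ 2) := mul_le_mul_of_nonneg_left hlo hn.le
    nlinarith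
  exact le_of_mul_le_mul_left h3 hm

lemma m_le_n {n m y c : ℝ} (hn : 0 < n) (hy : 0 < y) (hc : 0 ≤ c)
    (hE : 0 ≤ n * (y - c) - m * y) : m ≤ n := by
  have h3 : 0 ≤ y * (n - m) := by nlinarith [mul_nonneg hc hn.le]
  have := nonneg_of_mul_nonneg_right h3 hy
  linarith

lemma near_root {a u v s : ℝ} (hs : 0 ≤ s) (huv : v - u = s) (h : |a - v| ≤ |a - u|) :
    (a - v) ^ 2 * s ^ 2 / 4 ≤ ((a - u) * (a - v)) ^ 2 := by
  have h3 : s ≤ |a - u| + |a - v| := by
    have : s = (a - u) + (-(a - v)) := by linarith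
    calc s = (a - u) + (-(a - v)) := this
      _ ≤ |a - u| + |a - v| := add_le_add (le_abs_self _) (neg_le_abs _)
  have h4 : s / 2 ≤ |a - u| := by linarith
  have h5 : (s / 2) ^ 2 ≤ (a - u) ^ 2 := by
    rw [← sq_abs (a - u)]
    exact pow_le_pow_left₀ (by linarith) h4 2
  have h6 := mul_le_mul_of_nonneg_right h5 (sq_nonneg (a - v))
  calc (a - v) ^ 2 * s ^ 2 / 4 = (s / 2) ^ 2 * (a - v) ^ 2 := by ring
    _ ≤ (a - u) ^ 2 * (a - v) ^ 2 := h6
    _ = _ := by ring

theorem single (h : Dat G T θ0 θ1 θ2 α) (h1 : 0 ≤ θ1) : ∃ (U s : ℝ) (B : Finset V),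
    Md (fun x => (G.degree x : ℝ)) (-(θ1 * θ2)) (θ0 - θ2) (θ0 - θ1) (-(θ1 * θ2) - θ1) (θ1 - θ2)
      U s B := by
  have h01 := h.h01
  have h12 := h.h12
  have hn : (0 : ℝ) < Fintype.card V := by
    have := h.conn.nonempty
    exact_mod_cast Fintype.card_pos
  obtain ⟨hP0, hQ0, hP, hQ⟩ := norms h
  have hid := norm_id h
  have hθ2 := theta2_le h
  have hc : 0 ≤ -(θ1 * θ2) - θ1 := by nlinarith
  have hy : 0 < θ0 - θ1 := by linarith
  have hD : 0 < θ1 - θ2 := by linarith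
  have hm : 0 < θ0 - θ2 := by linarith
  have hym : θ0 - θ1 < θ0 - θ2 := by linarith
  have hSpos : 0 < ∑ z, α z := by
    obtain ⟨x⟩ := h.conn.nonempty
    exact Finset.sum_pos (fun z _ => h.pos z) ⟨x, Finset.mem_univ _⟩
  have hreal := real_alg (n := (Fintype.card V : ℝ)) (m := θ0 - θ2) (y := θ0 - θ1)
    (c := -(θ1 * θ2) - θ1) (X := (∑ z, α z) ^ 2) (P := PP G α θ0 θ1 θ2) hn hy hym hP0
    (by rw [hP]; ring) (by
      have e : (θ0 - θ2 - (θ0 - θ1)) * ((θ0 - θ2) * (θ0 - θ1) +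
          (-(θ1 * θ2) - θ1 + (θ0 - θ2 - (θ0 - θ1))) * (Fintype.card V : ℝ)
          - (∑ z, α z) ^ 2 / (θ0 - θ1)) = QQ G α θ0 θ1 θ2 := by rw [hQ]; ring
      rw [e]; exact hQ0)
  obtain ⟨r1, r2, r3⟩ := hreal
  have r3' := r3 hc
  have eD : θ0 - θ2 - (θ0 - θ1) = θ1 - θ2 := by ring
  rw [eD] at r1 r3'
  set n : ℝ := (Fintype.card V : ℝ) with hnn
  set U : ℝ := (∑ z, α z) / (θ0 - θ2) with hU
  set c : ℝ := -(θ1 * θ2) - θ1 with hcd
  set D : ℝ := θ1 - θ2 with hDd
  set m : ℝ := θ0 - θ2 with hmd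
  set y : ℝ := θ0 - θ1 with hyd
  have hUpos : 0 < U := div_pos hSpos hm
  have hX : (∑ z, α z) ^ 2 = m ^ 2 * U ^ 2 := by rw [hU]; field_simp
  have hXm : (∑ z, α z) ^ 2 / m ^ 2 = U ^ 2 := by rw [hX]; field_simp
  have hXm1 : (∑ z, α z) ^ 2 / m = m * U ^ 2 := by rw [hX]; field_simp
  rw [hXm] at r3'
  rw [hXm1] at hP
  have hlo : m * y + c * n ≤ m * U ^ 2 := by
    have : 0 ≤ D * (m * U ^ 2 - m * y - c * n) := by rw [← hP]; exact hP0
    have := nonneg_of_mul_nonneg_right this hD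
    linarith
  have hhi : m ^ 2 * U ^ 2 ≤ y * (m * y + (c + D) * n) := by
    have h2 : 0 ≤ D * (m * y + (c + D) * n - (∑ z, α z) ^ 2 / y) := by rw [← hQ]; exact hQ0
    have h3 := nonneg_of_mul_nonneg_right h2 hD
    have h4 : (∑ z, α z) ^ 2 / y ≤ m * y + (c + D) * n := by linarith
    rw [div_le_iff₀ hy, hX] at h4
    linarith
  have hdisc : 0 ≤ U ^ 2 - 4 * c := by
    have h2 : 0 ≤ D ^ 2 / m * n * (U ^ 2 - 4 * c) := hP0.trans r3'
    exact nonneg_of_mul_nonneg_right h2 (by positivity)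
  set s : ℝ := √(U ^ 2 - 4 * c) with hs
  have hs2 : s ^ 2 = U ^ 2 - 4 * c := Real.sq_sqrt hdisc
  have hs0 : 0 ≤ s := Real.sqrt_nonneg _
  have hEn : n * (y - c) - m * y ≤ n * s ^ 2 := by
    rw [hs2]; exact disc_low hn hy hm hc r2 hlo
  have hnm : m ≤ n := m_le_n hn hy hc r2
  have hDm : D ≤ m := by rw [hDd, hmd]; linarith
  have hpv : ∀ x, pv G α θ0 θ1 θ2 x = (α x - (U - s) / 2) * (α x - (U + s) / 2) := by
    intro x
    rw [pv_eq h x, ← hcd, ← hU]
    have : c = (U ^ 2 - s ^ 2) / 4 := by rw [hs2]; ring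
    rw [this]
    ring
  set B : Finset V := univ.filter (fun x => |α x - (U + s) / 2| ≤ |α x - (U - s) / 2|) with hB
  set w : V → ℝ := fun x => if x ∈ B then (U + s) / 2 else (U - s) / 2 with hw
  have hwt : ∀ x, wt U s B x = w x ^ 2 := by
    intro x; rw [hw]; unfold wt; simp only; split_ifs <;> rfl
  have hnear : ∀ x, (α x - w x) ^ 2 * s ^ 2 / 4 ≤ pv G α θ0 θ1 θ2 x ^ 2 := by
    intro x
    rw [hpv x]
    by_cases hx : x ∈ B
    · have h2 : w x = (U + s) / 2 := by rw [hw]; simp only; rw [if_pos hx]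
      rw [h2]
      rw [hB, Finset.mem_filter] at hx
      exact near_root hs0 (by ring) hx.2
    · have h2 : w x = (U - s) / 2 := by rw [hw]; simp only; rw [if_neg hx]
      rw [h2]
      have h3 : |α x - (U - s) / 2| ≤ |α x - (U + s) / 2| := by
        by_contra hcon
        push Not at hcon
        exact hx (by rw [hB, Finset.mem_filter]; exact ⟨Finset.mem_univ _, hcon.le⟩)
      have h4 : |(-α x) - (-((U - s) / 2))| ≤ |(-α x) - (-((U + s) / 2))| := by
        have e1 : (-α x) - (-((U - s) / 2)) = -(α x - (U - s) / 2) := by ring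
        have e2 : (-α x) - (-((U + s) / 2)) = -(α x - (U + s) / 2) := by ring
        rw [e1, e2, abs_neg, abs_neg]
        exact h3
      have h5 := near_root (a := -α x) (u := -((U + s) / 2)) (v := -((U - s) / 2)) (s := s) hs0
        (by ring) h4
      calc (α x - (U - s) / 2) ^ 2 * s ^ 2 / 4
          = ((-α x) - (-((U - s) / 2))) ^ 2 * s ^ 2 / 4 := by ring
        _ ≤ _ := h5
        _ = _ := by ring
  have hsumP : (∑ x, (α x - w x) ^ 2) * s ^ 2 ≤ 4 * PP G α θ0 θ1 θ2 := by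
    have h2 : ∑ x, (α x - w x) ^ 2 * s ^ 2 / 4 ≤ PP G α θ0 θ1 θ2 := by
      unfold PP
      exact Finset.sum_le_sum fun x _ => hnear x
    have h3 : ∑ x, (α x - w x) ^ 2 * s ^ 2 / 4 = (∑ x, (α x - w x) ^ 2) * s ^ 2 / 4 := by
      rw [Finset.sum_mul, Finset.sum_div]
    rw [h3] at h2
    linarith
  have hmP : m * PP G α θ0 θ1 θ2 ≤ D ^ 2 * (n * s ^ 2) :=
    r1.trans (mul_le_mul_of_nonneg_left hEn (sq_nonneg _))
  set e2 : ℝ := ∑ x, (α x - w x) ^ 2 with he2
  have he20 : 0 ≤ e2 := Finset.sum_nonneg fun x _ => sq_nonneg _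
  have he2le : m * e2 ≤ 4 * D ^ 2 * n := by
    rcases hs0.lt_or_eq with hspos | hszero
    · have h2 : (m * e2) * s ^ 2 ≤ (4 * D ^ 2 * n) * s ^ 2 := by
        calc (m * e2) * s ^ 2 = m * (e2 * s ^ 2) := by ring
          _ ≤ m * (4 * PP G α θ0 θ1 θ2) := mul_le_mul_of_nonneg_left hsumP hm.le
          _ = 4 * (m * PP G α θ0 θ1 θ2) := by ring
          _ ≤ 4 * (D ^ 2 * (n * s ^ 2)) := by linarith
          _ = _ := by ring
      exact le_of_mul_le_mul_right h2 (pow_pos hspos 2)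
    · have h2 : m * PP G α θ0 θ1 θ2 ≤ 0 := by rw [← hszero] at hmP; simpa using hmP
      have h3 : PP G α θ0 θ1 θ2 = 0 := by
        apply le_antisymm _ hP0
        by_contra hcon
        push Not at hcon
        have := mul_pos hm hcon
        linarith
      have h4 : ∀ x, α x - w x = 0 := by
        intro x
        unfold PP at h3
        have h5 := (Finset.sum_eq_zero_iff_of_nonneg (fun x _ => sq_nonneg _)).mp h3 x
          (Finset.mem_univ x)
        have h6 : pv G α θ0 θ1 θ2 x = 0 := pow_eq_zero_iff (two_ne_zero) |>.mp h5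
        rw [hpv x, ← hszero] at h6
        have h7 : w x = (U - 0) / 2 := by
          rw [hw]; simp only; rw [← hszero]; split_ifs <;> ring
        rw [h7]
        have : (α x - (U - 0) / 2) * (α x - (U + 0) / 2) = (α x - (U - 0) / 2) ^ 2 := by ring
        rw [this] at h6
        exact pow_eq_zero_iff (two_ne_zero) |>.mp h6
      have h5 : e2 = 0 := by
        rw [he2]
        exact Finset.sum_eq_zero fun x _ => by rw [h4 x]; ring
      rw [h5]
      have : 0 ≤ 4 * D ^ 2 * n := by positivity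
      linarith
  have hα2 : ∑ x, α x ^ 2 = m * y := by rw [norm_sq h]; ring
  have hcs : ∑ x, α x * |α x - w x| ≤ 2 * D * n := by
    have h2 := Finset.sum_mul_sq_le_sq_mul_sq (Finset.univ) α (fun x => |α x - w x|)
    simp only [sq_abs] at h2
    rw [hα2, ← he2] at h2
    apply le_of_sq_le_sq _ (by positivity)
    refine h2.trans ?_
    calc m * y * e2 = y * (m * e2) := by ring
      _ ≤ y * (4 * D ^ 2 * n) := mul_le_mul_of_nonneg_left he2le hy.le
      _ ≤ n * (4 * D ^ 2 * n) := by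
          apply mul_le_mul_of_nonneg_right _ (by positivity)
          linarith
      _ = (2 * D * n) ^ 2 := by ring
  have he2D : e2 ≤ 4 * D * n := by
    have h2 : m * e2 ≤ m * (4 * D * n) := by
      refine he2le.trans ?_
      have := mul_pos hD hn
      nlinarith
    exact le_of_mul_le_mul_left h2 hm
  refine ⟨U, s, B, hUpos, hs0, hs2, hlo, hhi, hEn, ?_, ?_, ?_⟩
  · intro x
    rw [h.diag x]
    have := sq_nonneg (α x)
    linarith
  · rw [Finset.sum_congr rfl fun x _ => h.diag x, Finset.sum_sub_distrib, hα2]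
    simp only [Finset.sum_const, Finset.card_univ, nsmul_eq_mul]
    ring
  · have h2 : ∀ x, |(G.degree x : ℝ) - (wt U s B x + -(θ1 * θ2))| ≤
        2 * (α x * |α x - w x|) + (α x - w x) ^ 2 := by
      intro x
      have e1 : (G.degree x : ℝ) - (wt U s B x + -(θ1 * θ2))
          = 2 * (α x * (α x - w x)) + -((α x - w x) ^ 2) := by
        rw [h.diag x, hwt x]; ring
      rw [e1]
      refine (abs_add_le _ _).trans ?_
      rw [abs_neg, abs_of_nonneg (sq_nonneg (α x - w x)), abs_mul, abs_mul,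
        abs_of_pos (h.pos x), abs_of_pos (show (0 : ℝ) < 2 by norm_num)]
    refine (Finset.sum_le_sum fun x _ => h2 x).trans ?_
    rw [Finset.sum_add_distrib, ← Finset.mul_sum, ← he2]
    linarith

end TV
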