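import Mathlib
import Pool.Agent.TV.Single

set_option autoImplicit false
set_option linter.unusedSectionVars false
set_option linter.unusedVariables false

/-!
# From the set of eigenvalues to the Perron data; regular graphs
-/

namespace TV

open Finset TE TS

/-- the eigenvalue set determines the ordered triple -/
lemma triple_eq {a b c a' b' c' : ℝ} (h1 : b < a) (h2 : c < b) (h1' : b' < a') (h2' : c' < b')
    (h : ({a, b, c} : Set ℝ) = {a', b', c'}) : a = a' ∧ b = b' ∧ c = c' := by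
  have ma : a ∈ ({a', b', c'} : Set ℝ) := by rw [← h]; simp
  have mb : b ∈ ({a', b', c'} : Set ℝ) := by rw [← h]; simp
  have mc : c ∈ ({a', b', c'} : Set ℝ) := by rw [← h]; simp
  simp only [Set.mem_insert_iff, Set.mem_singleton_iff] at ma mb mc
  rcases ma with ma | ma | ma <;> rcases mb with mb | mb | mb <;> rcases mc with mc | mc | mc <;>
    first
    | exact ⟨ma, mb, mc⟩
    | (exfalso; linarith)

lemma dat_of_set {n : ℕ} (G : SimpleGraph (Fin n)) [DecidableRel G.Adj] {θ0 θ1 θ2 : ℝ}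
    (hc : G.Connected) (h01 : θ1 < θ0) (h12 : θ2 < θ1)
    (hS : {μ : ℝ | ∃ v : Fin n → ℝ, v ≠ 0 ∧ Matrix.mulVec (G.adjMatrix ℝ) v = μ • v}
      = {θ0, θ1, θ2}) :
    ∃ (T : ℝ) (α : Fin n → ℝ), Dat G T θ0 θ1 θ2 α := by
  have hcard3 : {μ : ℝ | ∃ v : Fin n → ℝ, v ≠ 0 ∧
      Matrix.mulVec (G.adjMatrix ℝ) v = μ • v}.ncard = 3 := by
    rw [hS, Set.ncard_insert_of_notMem, Set.ncard_pair h12.ne']
    simp only [Set.mem_insert_iff, Set.mem_singleton_iff, not_or]
    exact ⟨h01.ne', (h12.trans h01).ne'⟩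
  obtain ⟨a, b, c, α, h⟩ := exists_dat G (max 1 (-θ2)) (le_max_left _ _) hc hcard3 (by
    intro μ v hv hμ
    have h1 : μ ∈ ({θ0, θ1, θ2} : Set ℝ) := by rw [← hS]; exact ⟨v, hv, hμ⟩
    have h2 : -θ2 ≤ max 1 (-θ2) := le_max_right _ _
    simp only [Set.mem_insert_iff, Set.mem_singleton_iff] at h1
    rcases h1 with h1 | h1 | h1 <;> linarith)
  have hsub : ({θ0, θ1, θ2} : Set ℝ) ⊆ {a, b, c} := by
    rw [← hS]
    rintro μ ⟨v, hv, hμ⟩
    have := h.ev μ v hv (by
      intro x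
      have h1 := congrFun hμ x
      rw [mulVec_ad] at h1
      rw [h1]; rfl)
    simpa using this
  have hSeq : ({θ0, θ1, θ2} : Set ℝ) = {a, b, c} := by
    apply Set.eq_of_subset_of_ncard_le hsub
    · rw [← hS, hcard3]
      have e1 := Set.ncard_insert_le a ({b, c} : Set ℝ)
      have e2 := Set.ncard_insert_le b ({c} : Set ℝ)
      rw [Set.ncard_singleton] at e2
      omega
  obtain ⟨rfl, rfl, rfl⟩ := triple_eq h01 h12 h.h01 h.h12 hSeq
  exact ⟨_, α, h⟩

variable {V : Type*} [Fintype V] [DecidableEq V]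
variable {G H : SimpleGraph V} [DecidableRel G.Adj] [DecidableRel H.Adj]
variable {T T' θ0 θ1 θ2 : ℝ} {α β : V → ℝ}

lemma reg_E (h : Dat G T θ0 θ1 θ2 α) {d : ℕ} (hd : G.IsRegularOfDegree d) :
    (θ0 - θ1) * (θ0 - θ2) - θ1 * θ2 * Fintype.card V = Fintype.card V * (d : ℝ) ∧ θ0 = d := by
  have h1 := sum_deg h
  have h2 : ∑ x, ∑ y, ad G x y = Fintype.card V * (d : ℝ) := by
    rw [Finset.sum_congr rfl fun x _ => by rw [sum_ad, hd x]]
    simp
  refine ⟨by rw [← h1, h2], ?_⟩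
  have h3 : ∀ x y, α x = α y := by
    intro x y
    have e1 := h.diag x
    have e2 := h.diag y
    rw [hd x] at e1
    rw [hd y] at e2
    have e3 : α x ^ 2 = α y ^ 2 := by linarith
    have e4 := h.pos x
    have e5 := h.pos y
    nlinarith
  obtain ⟨x⟩ := h.conn.nonempty
  have h4 := h.eig x
  have h5 : ∑ y, ad G x y * α y = (d : ℝ) * α x := by
    rw [Finset.sum_congr rfl fun y _ => by rw [h3 y x], ← Finset.sum_mul, sum_ad, hd x]
  rw [h5] at h4
  exact (mul_right_cancel₀ (h.pos x).ne' h4).symm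

lemma both_reg (h : Dat G T θ0 θ1 θ2 α) (h' : Dat H T' θ0 θ1 θ2 β) {d : ℕ}
    (hd : G.IsRegularOfDegree d) (x : V) : (H.degree x : ℝ) = d := by
  obtain ⟨hE, hθ0⟩ := reg_E h hd
  have h01 := h.h01
  have h12 := h.h12
  have hn : (0 : ℝ) < Fintype.card V := by
    have := h.conn.nonempty
    exact_mod_cast Fintype.card_pos
  have hid := norm_id h'
  obtain ⟨hP0, hQ0, _, _⟩ := norms h'
  have hE0 : (Fintype.card V : ℝ) * (θ0 - θ1 - (-(θ1 * θ2) - θ1)) - (θ0 - θ2) * (θ0 - θ1) = 0 := by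
    rw [← hθ0] at hE; linarith
  rw [hE0, mul_zero] at hid
  have hm : 0 < θ0 - θ2 := by linarith
  have hy : 0 < θ0 - θ1 := by linarith
  have hP : PP H β θ0 θ1 θ2 = 0 := by
    have e1 := mul_nonneg hm.le hP0
    have e2 := mul_nonneg hy.le hQ0
    have : (θ0 - θ2) * PP H β θ0 θ1 θ2 = 0 := by linarith
    exact (mul_eq_zero.mp this).resolve_left hm.ne'
  have hQ : QQ H β θ0 θ1 θ2 = 0 := by
    have e1 := mul_nonneg hm.le hP0
    have e2 := mul_nonneg hy.le hQ0
    have : (θ0 - θ1) * QQ H β θ0 θ1 θ2 = 0 := by linarith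
    exact (mul_eq_zero.mp this).resolve_left hy.ne'
  have hp : ∀ x, pv H β θ0 θ1 θ2 x = 0 := by
    intro x
    unfold PP at hP
    exact pow_eq_zero_iff (two_ne_zero) |>.mp ((Finset.sum_eq_zero_iff_of_nonneg
      (fun x _ => sq_nonneg _)).mp hP x (Finset.mem_univ x))
  have hq : ∀ x, pv H β θ0 θ2 θ1 x = 0 := by
    intro x
    unfold QQ at hQ
    exact pow_eq_zero_iff (two_ne_zero) |>.mp ((Finset.sum_eq_zero_iff_of_nonneg
      (fun x _ => sq_nonneg _)).mp hQ x (Finset.mem_univ x))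
  have hconst : ∀ x y, β x = β y := by
    intro x y
    have e : ∀ x, ((∑ z, β z) / (θ0 - θ1) - (∑ z, β z) / (θ0 - θ2)) * β x = θ1 - θ2 := by
      intro x
      have a1 := hp x
      have a2 := hq x
      unfold pv at a1 a2
      linarith
    have e1 := e x
    have e2 := e y
    have hne : (∑ z, β z) / (θ0 - θ1) - (∑ z, β z) / (θ0 - θ2) ≠ 0 := by
      intro h0
      rw [h0, zero_mul] at e1
      linarith
    exact mul_left_cancel₀ hne (e1.trans e2.symm)
  have hdeg : ∀ y, (H.degree y : ℝ) = H.degree x := by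
    intro y; rw [h'.diag y, h'.diag x, hconst y x]
  have h1 := sum_deg h'
  have h2 : ∑ z, ∑ y, ad H z y = Fintype.card V * (H.degree x : ℝ) := by
    rw [Finset.sum_congr rfl fun z _ => by rw [sum_ad, hdeg z]]
    simp
  rw [h2, hE] at h1
  exact mul_left_cancel₀ hn.ne' h1

end TV
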