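import Mathlib
import Pool.Agent.TV.Win
import Pool.Agent.VB.N

set_option autoImplicit false
set_option linter.unusedSectionVars false
set_option linter.unusedVariables false

/-!
# The spread of the valencies of a graph with three eigenvalues
-/

namespace TV

open Finset TE TS

variable {V : Type*} [Fintype V] [DecidableEq V]
variable {G : SimpleGraph V} [DecidableRel G.Adj] {T θ0 θ1 θ2 : ℝ} {α : V → ℝ}

/-- energy `∑ A_xy (α_x - α_y)²` -/
noncomputable def En (G : SimpleGraph V) [DecidableRel G.Adj] (α : V → ℝ) : ℝ :=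
  ∑ x, ∑ y, ad G x y * (α x - α y) ^ 2

/-- weighted variance `∑ α_x α_z (α_x - α_z)²` -/
noncomputable def Qv (α : V → ℝ) : ℝ := ∑ x, ∑ z, α x * α z * (α x - α z) ^ 2

lemma En_nonneg : 0 ≤ En G α :=
  Finset.sum_nonneg fun x _ => Finset.sum_nonneg fun y _ => mul_nonneg (ad_nonneg G x y)
    (sq_nonneg _)

lemma En_eq (h : Dat G T θ0 θ1 θ2 α) :
    En G α = 2 * ∑ x, α x ^ 2 * ((G.degree x : ℝ) - θ0) := by
  have h1 : ∑ x, ∑ y, ad G x y * α x ^ 2 = ∑ x, α x ^ 2 * (G.degree x : ℝ) := by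
    refine Finset.sum_congr rfl fun x _ => ?_
    rw [← Finset.sum_mul, sum_ad]; ring
  have h2 : ∑ x, ∑ y, ad G x y * α y ^ 2 = ∑ x, α x ^ 2 * (G.degree x : ℝ) := by
    rw [Finset.sum_comm]
    refine Finset.sum_congr rfl fun x _ => ?_
    rw [← Finset.sum_mul, ← sum_ad (G := G) x]
    rw [Finset.sum_congr rfl fun y _ => ad_symm y x]
    ring
  have h3 : ∑ x, ∑ y, ad G x y * (α x * α y) = ∑ x, θ0 * α x ^ 2 := by
    refine Finset.sum_congr rfl fun x _ => ?_
    have : ∑ y, ad G x y * (α x * α y) = α x * ∑ y, ad G x y * α y := by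
      rw [Finset.mul_sum]; exact Finset.sum_congr rfl fun y _ => by ring
    rw [this, h.eig x]; ring
  have h4 : En G α = ∑ x, ∑ y, ad G x y * α x ^ 2 + ∑ x, ∑ y, ad G x y * α y ^ 2
      - 2 * ∑ x, ∑ y, ad G x y * (α x * α y) := by
    unfold En
    rw [Finset.mul_sum, ← Finset.sum_add_distrib, ← Finset.sum_sub_distrib]
    refine Finset.sum_congr rfl fun x _ => ?_
    rw [Finset.mul_sum, ← Finset.sum_add_distrib, ← Finset.sum_sub_distrib]
    exact Finset.sum_congr rfl fun y _ => by ring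
  rw [h4, h1, h2, h3, Finset.mul_sum, Finset.mul_sum, ← Finset.sum_add_distrib,
    ← Finset.sum_sub_distrib]
  exact Finset.sum_congr rfl fun x _ => by ring

lemma two_path (Δ : ℝ) (hΔ : ∀ x, (G.degree x : ℝ) ≤ Δ) :
    ∑ x, ∑ z, (cd G x z : ℝ) * (α x - α z) ^ 2 ≤ 4 * Δ * En G α := by
  have h1 : ∀ x z, (cd G x z : ℝ) * (α x - α z) ^ 2 ≤
      ∑ w, (2 * (ad G x w * (α x - α w) ^ 2 * ad G w z) +
        2 * (ad G x w * (ad G w z * (α w - α z) ^ 2))) := by
    intro x z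
    rw [← ad_sq, Finset.sum_mul]
    refine Finset.sum_le_sum fun w _ => ?_
    have h2 : (α x - α z) ^ 2 ≤ 2 * (α x - α w) ^ 2 + 2 * (α w - α z) ^ 2 := by
      nlinarith [sq_nonneg ((α x - α w) - (α w - α z))]
    have h3 : 0 ≤ ad G x w * ad G w z := mul_nonneg (ad_nonneg G x w) (ad_nonneg G w z)
    have h4 := mul_le_mul_of_nonneg_left h2 h3
    linarith
  have h5 : ∑ x, ∑ z, ∑ w, (2 * (ad G x w * (α x - α w) ^ 2 * ad G w z) +
        2 * (ad G x w * (ad G w z * (α w - α z) ^ 2)))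
      = 4 * ∑ w, (∑ x, ad G w x * (α w - α x) ^ 2) * (G.degree w : ℝ) := by
    have e1 : ∑ x, ∑ z, ∑ w, (ad G x w * (α x - α w) ^ 2 * ad G w z)
        = ∑ w, (∑ x, ad G w x * (α w - α x) ^ 2) * (G.degree w : ℝ) := by
      have : ∀ x, ∑ z, ∑ w, (ad G x w * (α x - α w) ^ 2 * ad G w z)
          = ∑ w, ad G x w * (α x - α w) ^ 2 * (G.degree w : ℝ) := by
        intro x
        rw [Finset.sum_comm]
        refine Finset.sum_congr rfl fun w _ => ?_
        rw [← Finset.mul_sum, sum_ad]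
      rw [Finset.sum_congr rfl fun x _ => this x, Finset.sum_comm]
      refine Finset.sum_congr rfl fun w _ => ?_
      rw [← Finset.sum_mul]
      congr 1
      refine Finset.sum_congr rfl fun x _ => ?_
      rw [ad_symm x w]; ring
    have e2 : ∑ x, ∑ z, ∑ w, (ad G x w * (ad G w z * (α w - α z) ^ 2))
        = ∑ w, (∑ x, ad G w x * (α w - α x) ^ 2) * (G.degree w : ℝ) := by
      have : ∀ x, ∑ z, ∑ w, (ad G x w * (ad G w z * (α w - α z) ^ 2))
          = ∑ w, ad G x w * ∑ z, ad G w z * (α w - α z) ^ 2 := by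
        intro x
        rw [Finset.sum_comm]
        refine Finset.sum_congr rfl fun w _ => ?_
        rw [← Finset.mul_sum]
      rw [Finset.sum_congr rfl fun x _ => this x, Finset.sum_comm]
      refine Finset.sum_congr rfl fun w _ => ?_
      rw [← Finset.sum_mul, mul_comm, ← sum_ad (G := G) w]
      congr 1
      exact Finset.sum_congr rfl fun x _ => ad_symm x w
    have e3 : ∑ x, ∑ z, ∑ w, (2 * (ad G x w * (α x - α w) ^ 2 * ad G w z) +
        2 * (ad G x w * (ad G w z * (α w - α z) ^ 2)))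
        = 2 * ∑ x, ∑ z, ∑ w, (ad G x w * (α x - α w) ^ 2 * ad G w z)
          + 2 * ∑ x, ∑ z, ∑ w, (ad G x w * (ad G w z * (α w - α z) ^ 2)) := by
      simp only [Finset.mul_sum, Finset.sum_add_distrib]
    rw [e3, e1, e2]; ring
  calc ∑ x, ∑ z, (cd G x z : ℝ) * (α x - α z) ^ 2
      ≤ ∑ x, ∑ z, ∑ w, (2 * (ad G x w * (α x - α w) ^ 2 * ad G w z) +
        2 * (ad G x w * (ad G w z * (α w - α z) ^ 2))) :=
        Finset.sum_le_sum fun x _ => Finset.sum_le_sum fun z _ => h1 x z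
    _ = 4 * ∑ w, (∑ x, ad G w x * (α w - α x) ^ 2) * (G.degree w : ℝ) := h5
    _ ≤ 4 * ∑ w, (∑ x, ad G w x * (α w - α x) ^ 2) * Δ := by
        apply mul_le_mul_of_nonneg_left _ (by norm_num)
        refine Finset.sum_le_sum fun w _ => mul_le_mul_of_nonneg_left (hΔ w) ?_
        exact Finset.sum_nonneg fun x _ => mul_nonneg (ad_nonneg G w x) (sq_nonneg _)
    _ = 4 * Δ * En G α := by rw [← Finset.sum_mul]; unfold En; ring

lemma Q_eq (h : Dat G T θ0 θ1 θ2 α) :
    ∑ x, ∑ z, (cd G x z : ℝ) * (α x - α z) ^ 2 = Qv α + (θ1 + θ2) * En G α := by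
  unfold Qv En
  rw [Finset.mul_sum, ← Finset.sum_add_distrib]
  refine Finset.sum_congr rfl fun x _ => ?_
  rw [Finset.mul_sum, ← Finset.sum_add_distrib]
  refine Finset.sum_congr rfl fun z _ => ?_
  have h1 := h.entry x z
  by_cases hxz : x = z
  · rw [hxz]; ring
  · rw [if_neg hxz] at h1
    have : (cd G x z : ℝ) = α x * α z + (θ1 + θ2) * ad G x z := by linarith
    rw [this]; ring

lemma En_le (h : Dat G T θ0 θ1 θ2 α) :
    (Fintype.card V : ℝ) * En G α ≤ ∑ x, ∑ z, (α x ^ 2 - α z ^ 2) ^ 2 := by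
  have hn : (0 : ℝ) < Fintype.card V := by
    have := h.conn.nonempty
    exact_mod_cast Fintype.card_pos
  obtain ⟨hE, _⟩ := alg_apply h
  have hN := norm_sq h
  set n : ℝ := (Fintype.card V : ℝ) with hnn
  set N : ℝ := ∑ x, α x ^ 2 with hNN
  have hNnn : 0 ≤ N := Finset.sum_nonneg fun x _ => sq_nonneg _
  have hR : ∑ x, ∑ z, (α x ^ 2 - α z ^ 2) ^ 2 = 2 * (n * ∑ x, α x ^ 4 - N ^ 2) := by
    have e1 : ∀ x, ∑ z, (α x ^ 2 - α z ^ 2) ^ 2
        = n * α x ^ 4 - 2 * α x ^ 2 * N + ∑ z, α z ^ 4 := by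
      intro x
      have : ∀ z, (α x ^ 2 - α z ^ 2) ^ 2 = α x ^ 4 - 2 * α x ^ 2 * α z ^ 2 + α z ^ 4 := by
        intro z; ring
      rw [Finset.sum_congr rfl fun z _ => this z, Finset.sum_add_distrib, Finset.sum_sub_distrib,
        ← Finset.mul_sum]
      simp only [Finset.sum_const, Finset.card_univ, nsmul_eq_mul]
      rw [← hnn, ← hNN]
    rw [Finset.sum_congr rfl fun x _ => e1 x, Finset.sum_add_distrib, Finset.sum_sub_distrib,
      ← Finset.mul_sum, ← Finset.sum_mul, ← Finset.mul_sum]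
    simp only [Finset.sum_const, Finset.card_univ, nsmul_eq_mul]
    rw [← hnn, ← hNN]
    ring
  have hL : n * En G α = 2 * (n * ∑ x, α x ^ 4 - n * (θ0 + θ1 * θ2) * N) := by
    rw [En_eq h]
    have : ∑ x, α x ^ 2 * ((G.degree x : ℝ) - θ0) = ∑ x, α x ^ 4 - (θ0 + θ1 * θ2) * N := by
      rw [hNN, Finset.mul_sum, ← Finset.sum_sub_distrib]
      refine Finset.sum_congr rfl fun x _ => ?_
      rw [h.diag x]; ring
    rw [this]; ring
  rw [hR, hL]
  have h5 : N * N ≤ n * (θ0 + θ1 * θ2) * N := by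
    apply mul_le_mul_of_nonneg_right _ hNnn
    rw [hN]; exact hE
  nlinarith

lemma Qv_pos (h : Dat G T θ0 θ1 θ2 α) (hreg : ¬ ∃ d, G.IsRegularOfDegree d) : 0 < Qv α := by
  have h1 : ∃ x z, α x ≠ α z := by
    by_contra hcon
    push Not at hcon
    exact hreg (h.reg_of_const fun x y _ => hcon x y)
  obtain ⟨x, z, hxz⟩ := h1
  unfold Qv
  have hnn : ∀ x z, 0 ≤ α x * α z * (α x - α z) ^ 2 := fun x z =>
    mul_nonneg (mul_nonneg (h.pos x).le (h.pos z).le) (sq_nonneg _)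
  refine Finset.sum_pos' (fun x _ => Finset.sum_nonneg fun z _ => hnn x z) ⟨x, Finset.mem_univ _, ?_⟩
  refine Finset.sum_pos' (fun z _ => hnn x z) ⟨z, Finset.mem_univ _, ?_⟩
  have := sub_ne_zero.mpr hxz
  have := h.pos x
  have := h.pos z
  positivity

/-- bounded principal ratio: the graph is dense -/
theorem ratio_bound (h : Dat G T θ0 θ1 θ2 α) (hreg : ¬ ∃ d, G.IsRegularOfDegree d)
    {M m Δ : ℝ} (hm : 0 < m) (hαm : ∀ x, m ≤ α x) (hαM : ∀ x, α x ≤ M)
    (hΔ : ∀ x, (G.degree x : ℝ) ≤ Δ) (hs : -(θ1 + θ2) ≤ Δ) :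
    (Fintype.card V : ℝ) * m ≤ 20 * M * Δ := by
  have hn : (0 : ℝ) < Fintype.card V := by
    have := h.conn.nonempty
    exact_mod_cast Fintype.card_pos
  have hQ := Qv_pos h hreg
  have hEn0 : 0 ≤ En G α := En_nonneg
  have h1 := two_path (α := α) Δ hΔ
  rw [Q_eq h] at h1
  have h2 : Qv α ≤ 5 * Δ * En G α := by nlinarith
  have hM : 0 < M := by
    obtain ⟨x⟩ := h.conn.nonempty
    exact (h.pos x).trans_le (hαM x)
  have h3 : m * ∑ x, ∑ z, (α x ^ 2 - α z ^ 2) ^ 2 ≤ 4 * M * Qv α := by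
    unfold Qv
    rw [Finset.mul_sum, Finset.mul_sum]
    refine Finset.sum_le_sum fun x _ => ?_
    rw [Finset.mul_sum, Finset.mul_sum]
    refine Finset.sum_le_sum fun z _ => ?_
    have e1 : (α x ^ 2 - α z ^ 2) ^ 2 = (α x + α z) ^ 2 * (α x - α z) ^ 2 := by ring
    have e2 : m * (α x + α z) ^ 2 ≤ 4 * M * (α x * α z) := by
      have px := h.pos x
      have pz := h.pos z
      have mx := hαm x
      have mz := hαm z
      have Mx := hαM x
      have Mz := hαM z
      rcases le_total (α x) (α z) with hle | hle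
      · have a1 : (α x + α z) ^ 2 ≤ 4 * α z ^ 2 := by nlinarith
        have a2 : m * α z ≤ α x * M := mul_le_mul mx Mz pz.le px.le
        calc m * (α x + α z) ^ 2 ≤ m * (4 * α z ^ 2) := mul_le_mul_of_nonneg_left a1 hm.le
          _ = 4 * (m * α z) * α z := by ring
          _ ≤ 4 * (α x * M) * α z := by
              apply mul_le_mul_of_nonneg_right _ pz.le
              linarith
          _ = _ := by ring
      · have a1 : (α x + α z) ^ 2 ≤ 4 * α x ^ 2 := by nlinarith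
        have a2 : m * α x ≤ α z * M := mul_le_mul mz Mx px.le pz.le
        calc m * (α x + α z) ^ 2 ≤ m * (4 * α x ^ 2) := mul_le_mul_of_nonneg_left a1 hm.le
          _ = 4 * (m * α x) * α x := by ring
          _ ≤ 4 * (α z * M) * α x := by
              apply mul_le_mul_of_nonneg_right _ px.le
              linarith
          _ = _ := by ring
    rw [e1]
    have e3 := mul_le_mul_of_nonneg_right e2 (sq_nonneg (α x - α z))
    calc m * ((α x + α z) ^ 2 * (α x - α z) ^ 2) = m * (α x + α z) ^ 2 * (α x - α z) ^ 2 := by ring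
      _ ≤ 4 * M * (α x * α z) * (α x - α z) ^ 2 := e3
      _ = _ := by ring
  have h4 := En_le h
  have hΔ0 : 0 ≤ Δ := by
    obtain ⟨x⟩ := h.conn.nonempty
    exact (Nat.cast_nonneg _).trans (hΔ x)
  have h5 : ((Fintype.card V : ℝ) * m) * Qv α ≤ (20 * M * Δ) * Qv α := by
    calc ((Fintype.card V : ℝ) * m) * Qv α
        ≤ ((Fintype.card V : ℝ) * m) * (5 * Δ * En G α) :=
          mul_le_mul_of_nonneg_left h2 (by positivity)
      _ = (5 * Δ * m) * ((Fintype.card V : ℝ) * En G α) := by ring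
      _ ≤ (5 * Δ * m) * ∑ x, ∑ z, (α x ^ 2 - α z ^ 2) ^ 2 :=
          mul_le_mul_of_nonneg_left h4 (by positivity)
      _ = (5 * Δ) * (m * ∑ x, ∑ z, (α x ^ 2 - α z ^ 2) ^ 2) := by ring
      _ ≤ (5 * Δ) * (4 * M * Qv α) := mul_le_mul_of_nonneg_left h3 (by positivity)
      _ = _ := by ring
  exact le_of_mul_le_mul_right h5 hQ

end TV
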