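import Mathlib
import Pool.Agent.TV.Spread

set_option autoImplicit false
set_option linter.unusedSectionVars false
set_option linter.unusedVariables false

/-!
# The spread of the valencies of a graph with three eigenvalues: the bounds
-/

namespace TV

open Finset TE TS

variable {V : Type*} [Fintype V] [DecidableEq V]
variable {G : SimpleGraph V} [DecidableRel G.Adj] {T θ0 θ1 θ2 : ℝ} {α : V → ℝ}

lemma tau_ge_one (h : Dat G T θ0 θ1 θ2 α) (hreg : ¬ ∃ d, G.IsRegularOfDegree d) (h1 : 0 < θ1) :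
    1 ≤ -(θ1 * θ2) := by
  obtain ⟨k, hk⟩ := h.int_tau hreg
  have h2 := theta2_le h
  have h3 : θ1 * θ2 < 0 := mul_neg_of_pos_of_neg h1 (by linarith)
  rw [hk] at h3 ⊢
  have h4 : k < 0 := by exact_mod_cast h3
  have h5 : (1 : ℤ) ≤ -k := by omega
  exact_mod_cast h5

lemma neg_sum_le (h : Dat G T θ0 θ1 θ2 α) (hreg : ¬ ∃ d, G.IsRegularOfDegree d) (h1 : 0 < θ1)
    {Δ : ℝ} (hΔ : ∀ x, (G.degree x : ℝ) ≤ Δ) : -(θ1 + θ2) ≤ Δ := by
  have hT := tau_ge_one h hreg h1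
  have hθ2 := theta2_le h
  obtain ⟨x⟩ := h.conn.nonempty
  have h2 := hΔ x
  rw [h.diag x] at h2
  have h3 := h.one_le hreg x
  have h4 : (1 : ℝ) ≤ α x ^ 2 := by nlinarith
  by_cases h5 : 1 ≤ θ1
  · have : 0 ≤ (θ1 - 1) * (-θ2 + 1) := mul_nonneg (by linarith) (by linarith)
    nlinarith
  · have h6 : ¬ (2 < -(θ1 + θ2)) := fun hh => h5 (theta1_ge_one h hreg h1 hh)
    push Not at h6
    linarith

lemma theta0_ge (h : Dat G T θ0 θ1 θ2 α) (hreg : ¬ ∃ d, G.IsRegularOfDegree d) :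
    -(θ1 * θ2) + 1 ≤ θ0 := by
  obtain ⟨x0⟩ := h.conn.nonempty
  obtain ⟨x, _, hx⟩ := Finset.exists_min_image (Finset.univ : Finset V) α ⟨x0, Finset.mem_univ _⟩
  have h1 := h.eig x
  have h2 : ∑ y, ad G x y * α x ≤ ∑ y, ad G x y * α y :=
    Finset.sum_le_sum fun y _ => mul_le_mul_of_nonneg_left (hx y (Finset.mem_univ _))
      (ad_nonneg G x y)
  rw [← Finset.sum_mul, sum_ad, h1] at h2
  have h3 := le_of_mul_le_mul_right h2 (h.pos x)
  rw [h.diag x] at h3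
  have h4 := h.one_le hreg x
  nlinarith

lemma N_low (h : Dat G T θ0 θ1 θ2 α) (hreg : ¬ ∃ d, G.IsRegularOfDegree d) (h1 : 0 < θ1) :
    (-(θ1 * θ2) + 1) ^ 2 ≤ 2 * ((θ0 - θ1) * (θ0 - θ2)) := by
  have h0 := theta0_ge h hreg
  have hθ2 := theta2_le h
  have hT := tau_ge_one h hreg h1
  have h2 : θ1 ≤ (-(θ1 * θ2) + 1) / 2 := by
    rcases le_or_gt θ1 (-θ2) with h3 | h3
    · nlinarith [sq_nonneg (θ1 - 1)]
    · have := VB.u_two h hreg h3
      nlinarith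
  have h3 : (-(θ1 * θ2) + 1) / 2 ≤ θ0 - θ1 := by linarith
  have h4 : -(θ1 * θ2) + 1 ≤ θ0 - θ2 := by linarith
  have h5 : (-(θ1 * θ2) + 1) / 2 * (-(θ1 * θ2) + 1) ≤ (θ0 - θ1) * (θ0 - θ2) :=
    mul_le_mul h3 h4 (by linarith) (by linarith)
  linarith

/-- `n ≤ 3200 M⁴` -/
lemma real_M {n M m t : ℝ} (hn : 0 < n) (hm : 1 ≤ m) (hmM : m + 1 ≤ M) (ht : 0 < t)
    (h1 : n * m ≤ 20 * M * (M ^ 2 + t)) (h2 : t ^ 2 ≤ 2 * (n * M ^ 2)) : n ≤ 3200 * M ^ 4 := by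
  have hM : 2 ≤ M := by linarith
  have hM0 : 0 < M := by linarith
  have h3 : n ≤ 20 * M * (M ^ 2 + t) := by nlinarith
  rcases le_or_gt t (M ^ 2) with h4 | h4
  · have : n ≤ 40 * M ^ 3 := by nlinarith
    have h5 : M ^ 3 ≤ M ^ 4 := by
      have : M ^ 4 = M ^ 3 * M := by ring
      rw [this]
      nlinarith [pow_pos hM0 3]
    nlinarith [pow_pos hM0 4]
  · have h5 : n ≤ 40 * M * t := by nlinarith
    have h6 : n ^ 2 ≤ (40 * M * t) ^ 2 := pow_le_pow_left₀ hn.le h5 2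
    have h7 : n * n ≤ n * (3200 * M ^ 4) := by
      calc n * n = n ^ 2 := by ring
        _ ≤ (40 * M * t) ^ 2 := h6
        _ = 1600 * M ^ 2 * t ^ 2 := by ring
        _ ≤ 1600 * M ^ 2 * (2 * (n * M ^ 2)) := mul_le_mul_of_nonneg_left h2 (by positivity)
        _ = _ := by ring
    exact le_of_mul_le_mul_left h7 hn

/-- `n ≤ 5700 (M² - m²)²` -/
lemma real_spread {n M m t : ℝ} (hn : 0 < n) (hm : 1 ≤ m) (hmM : m + 1 ≤ M) (ht : 0 < t)
    (h1 : n * m ≤ 20 * M * (M ^ 2 + t)) (h2 : t ^ 2 ≤ 2 * (n * M ^ 2)) :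
    n ≤ 5700 * (M ^ 2 - m ^ 2) ^ 2 := by
  have hM : 2 ≤ M := by linarith
  have hM0 : 0 < M := by linarith
  rcases le_or_gt (2 * m) M with hA | hB
  · have h3 := real_M hn hm hmM ht h1 h2
    have h4 : 3 / 4 * M ^ 2 ≤ M ^ 2 - m ^ 2 := by nlinarith
    have h5 : (3 / 4 * M ^ 2) ^ 2 ≤ (M ^ 2 - m ^ 2) ^ 2 := pow_le_pow_left₀ (by positivity) h4 2
    nlinarith
  · have h3 : n ≤ 40 * (M ^ 2 + t) := by
      have h4 : n * m ≤ (40 * (M ^ 2 + t)) * m := by nlinarith [pow_pos hM0 2]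
      exact le_of_mul_le_mul_right h4 (by linarith)
    have h4 : 3 / 2 * M ≤ M ^ 2 - m ^ 2 := by nlinarith
    have h5 : (3 / 2 * M) ^ 2 ≤ (M ^ 2 - m ^ 2) ^ 2 := pow_le_pow_left₀ (by positivity) h4 2
    have h6 : n ≤ 12800 * M ^ 2 := by
      rcases le_or_gt t (M ^ 2) with h7 | h7
      · nlinarith
      · have h8 : n ≤ 80 * t := by nlinarith
        have h9 : n ^ 2 ≤ (80 * t) ^ 2 := pow_le_pow_left₀ hn.le h8 2
        have h10 : n * n ≤ n * (12800 * M ^ 2) := by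
          calc n * n = n ^ 2 := by ring
            _ ≤ (80 * t) ^ 2 := h9
            _ = 6400 * t ^ 2 := by ring
            _ ≤ 6400 * (2 * (n * M ^ 2)) := mul_le_mul_of_nonneg_left h2 (by norm_num)
            _ = _ := by ring
        exact le_of_mul_le_mul_left h10 hn
    nlinarith

/-- the two inequalities for the extreme Perron entries -/
lemma extremes (h : Dat G T θ0 θ1 θ2 α) (hreg : ¬ ∃ d, G.IsRegularOfDegree d) (h1 : 0 < θ1) :
    ∃ x y : V, (∀ z, α x ≤ α z) ∧ (∀ z, α z ≤ α y) ∧ 1 ≤ α x ∧ α x + 1 ≤ α y ∧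
      (Fintype.card V : ℝ) * α x ≤ 20 * α y * (α y ^ 2 + -(θ1 * θ2)) ∧
      (-(θ1 * θ2)) ^ 2 ≤ 2 * ((Fintype.card V : ℝ) * α y ^ 2) ∧
      (Fintype.card V : ℝ) * α x ≤ 20 * α y * (G.maxDegree : ℝ) := by
  obtain ⟨x0⟩ := h.conn.nonempty
  obtain ⟨x, _, hx⟩ := Finset.exists_min_image (Finset.univ : Finset V) α ⟨x0, Finset.mem_univ _⟩
  obtain ⟨y, _, hy⟩ := Finset.exists_max_image (Finset.univ : Finset V) α ⟨x0, Finset.mem_univ _⟩
  have hx' : ∀ z, α x ≤ α z := fun z => hx z (Finset.mem_univ _)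
  have hy' : ∀ z, α z ≤ α y := fun z => hy z (Finset.mem_univ _)
  have h2 := h.one_le hreg x
  have hne : α x ≠ α y := by
    intro heq
    apply hreg
    apply h.reg_of_const
    intro a b _
    have e1 := hx' a
    have e2 := hy' a
    have e3 := hx' b
    have e4 := hy' b
    linarith
  have hsep := sep h hreg h1 x y hne
  have hle : α x + 1 ≤ α y := by
    rw [abs_sub_comm, abs_of_nonneg (sub_nonneg.mpr (hy' x))] at hsep
    linarith
  have hT := tau_ge_one h hreg h1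
  refine ⟨x, y, hx', hy', h2, hle, ?_, ?_, ?_⟩
  · have hΔ : ∀ z, (G.degree z : ℝ) ≤ α y ^ 2 + -(θ1 * θ2) := by
      intro z
      rw [h.diag z]
      have e1 := hy' z
      have e2 := h.pos z
      nlinarith
    exact ratio_bound h hreg (h.pos x) hx' hy' hΔ (neg_sum_le h hreg h1 hΔ)
  · have h3 := N_low h hreg h1
    have h4 := norm_sq h
    have h5 : ∑ z, α z ^ 2 ≤ (Fintype.card V : ℝ) * α y ^ 2 := by
      have : ∑ z, α z ^ 2 ≤ ∑ z : V, α y ^ 2 := Finset.sum_le_sum fun z _ =>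
        pow_le_pow_left₀ (h.pos z).le (hy' z) 2
      rw [Finset.sum_const, Finset.card_univ, nsmul_eq_mul] at this
      exact this
    rw [h4] at h5
    nlinarith
  · have hΔ : ∀ z, (G.degree z : ℝ) ≤ (G.maxDegree : ℝ) := fun z => by
      exact_mod_cast G.degree_le_maxDegree z
    exact ratio_bound h hreg (h.pos x) hx' hy' hΔ (neg_sum_le h hreg h1 hΔ)

theorem spread (h : Dat G T θ0 θ1 θ2 α) (hreg : ¬ ∃ d, G.IsRegularOfDegree d) (h1 : 0 < θ1) :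
    (Fintype.card V : ℝ) ≤ 5700 * ((G.maxDegree : ℝ) - (G.minDegree : ℝ)) ^ 2 ∧
    (Fintype.card V : ℝ) ^ 2 * ((G.minDegree : ℝ) + θ1 * θ2) ≤
      400 * (G.maxDegree : ℝ) ^ 2 * ((G.maxDegree : ℝ) + θ1 * θ2) := by
  obtain ⟨x, y, hx, hy, h2, h3, h4, h5, h6⟩ := extremes h hreg h1
  have hn : (0 : ℝ) < Fintype.card V := by
    have := h.conn.nonempty
    exact_mod_cast Fintype.card_pos
  have hT := tau_ge_one h hreg h1
  have e1 : (G.degree y : ℝ) ≤ (G.maxDegree : ℝ) := by exact_mod_cast G.degree_le_maxDegree y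
  have e2 : (G.minDegree : ℝ) ≤ (G.degree x : ℝ) := by exact_mod_cast G.minDegree_le_degree x
  rw [h.diag y] at e1
  rw [h.diag x] at e2
  constructor
  · have h7 := real_spread hn h2 h3 (by linarith) h4 h5
    have h8 : 0 ≤ α y ^ 2 - α x ^ 2 := by nlinarith
    have h9 : α y ^ 2 - α x ^ 2 ≤ (G.maxDegree : ℝ) - (G.minDegree : ℝ) := by linarith
    have h10 := pow_le_pow_left₀ h8 h9 2
    linarith
  · have h7 : ((Fintype.card V : ℝ) * α x) ^ 2 ≤ (20 * α y * (G.maxDegree : ℝ)) ^ 2 :=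
      pow_le_pow_left₀ (mul_nonneg hn.le (h.pos x).le) h6 2
    have h8 : (G.minDegree : ℝ) + θ1 * θ2 ≤ α x ^ 2 := by linarith
    have h9 : α y ^ 2 ≤ (G.maxDegree : ℝ) + θ1 * θ2 := by linarith
    calc (Fintype.card V : ℝ) ^ 2 * ((G.minDegree : ℝ) + θ1 * θ2)
        ≤ (Fintype.card V : ℝ) ^ 2 * α x ^ 2 := mul_le_mul_of_nonneg_left h8 (by positivity)
      _ = ((Fintype.card V : ℝ) * α x) ^ 2 := by ring
      _ ≤ (20 * α y * (G.maxDegree : ℝ)) ^ 2 := h7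
      _ = 400 * (G.maxDegree : ℝ) ^ 2 * α y ^ 2 := by ring
      _ ≤ _ := mul_le_mul_of_nonneg_left h9 (by positivity)

theorem card_le_M (h : Dat G T θ0 θ1 θ2 α) (hreg : ¬ ∃ d, G.IsRegularOfDegree d) (h1 : 0 < θ1)
    {M : ℝ} (hM : ∀ x, α x ≤ M) : (Fintype.card V : ℝ) ≤ 3200 * M ^ 4 := by
  obtain ⟨x, y, hx, hy, h2, h3, h4, h5, h6⟩ := extremes h hreg h1
  have hn : (0 : ℝ) < Fintype.card V := by
    have := h.conn.nonempty
    exact_mod_cast Fintype.card_pos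
  have hT := tau_ge_one h hreg h1
  have h7 := real_M hn h2 h3 (by linarith) h4 h5
  have h8 := pow_le_pow_left₀ (h.pos y).le (hM y) 4
  linarith

end TV
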