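import Mathlib
import Pool.Agent.TV.Spread2

set_option autoImplicit false
set_option linter.unusedSectionVars false
set_option linter.unusedVariables false

/-!
# Few triangles on every edge
-/

namespace TV

open Finset TE TS

variable {V : Type*} [Fintype V] [DecidableEq V]
variable {G : SimpleGraph V} [DecidableRel G.Adj] {T θ0 θ1 θ2 : ℝ} {α : V → ℝ}

/-- if every edge is in at most `r` triangles then the entries of the Perron vector are at most
`r² + r`, or the graph is regular or complete bipartite -/
theorem few_triangles (h : Dat G T θ0 θ1 θ2 α) (hreg : ¬ ∃ d, G.IsRegularOfDegree d)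
    (h1 : 0 < θ1) (hbip : ¬ ∃ s : Set V, ∀ u v, G.Adj u v ↔ ¬ (u ∈ s ↔ v ∈ s))
    {r : ℝ} (hr : 0 ≤ r) (hlam : ∀ x y, G.Adj x y → (cd G x y : ℝ) ≤ r) (x : V) :
    α x ≤ r ^ 2 + r := by
  have hone := fun z => h.one_le hreg z
  have hlow : ∀ x y, G.Adj x y → -(θ1 + θ2) ≤ α x * α y := by
    intro x y hxy
    have e1 := h.adj x y hxy
    have e2 : (0 : ℝ) ≤ cd G x y := Nat.cast_nonneg _
    linarith
  have hup : ∀ x y, G.Adj x y → α x * α y ≤ r + -(θ1 + θ2) := by
    intro x y hxy
    have e1 := h.adj x y hxy
    have e2 := hlam x y hxy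
    linarith
  have hnb : ∀ x, ∃ y, G.Adj x y := by
    intro x
    by_contra hcon
    push Not at hcon
    have e1 := h.eig x
    have e2 : ∑ y, ad G x y * α y = 0 := Finset.sum_eq_zero fun y _ => by
      unfold ad; rw [if_neg (hcon y)]; ring
    rw [e2] at e1
    have := mul_pos h.h0 (h.pos x)
    linarith
  rcases le_or_gt (-(θ1 + θ2)) (r ^ 2) with hA | hB
  · obtain ⟨y, hxy⟩ := hnb x
    have e1 := hup x y hxy
    have e2 := hone y
    have e3 := h.pos x
    nlinarith
  exfalso
  -- neighbours of a vertex with a large entry have equal entries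
  have hB1 : ∀ u, r < α u → ∀ y z, G.Adj u y → G.Adj u z → α y = α z := by
    intro u hu y z huy huz
    by_contra hne
    have e1 := sep h hreg h1 y z hne
    have e2 : |α u * α y - α u * α z| ≤ r := by
      have a1 := hlow u y huy
      have a2 := hup u y huy
      have a3 := hlow u z huz
      have a4 := hup u z huz
      rw [abs_le]; constructor <;> linarith
    have e3 : α u * α y - α u * α z = α u * (α y - α z) := by ring
    rw [e3, abs_mul, abs_of_pos (h.pos u)] at e2
    have e4 : α u * 1 ≤ α u * |α y - α z| := mul_le_mul_of_nonneg_left e1 (h.pos u).le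
    linarith
  have hbig : ∀ u v, G.Adj u v → α u ≤ r → r < α v := by
    intro u v huv hu
    by_contra hv
    push Not at hv
    have e1 := hlow u v huv
    have e2 : α u * α v ≤ r * r := mul_le_mul hu hv (h.pos v).le hr
    nlinarith
  obtain ⟨x1, _, hmax⟩ := Finset.exists_max_image (Finset.univ : Finset V) α ⟨x, Finset.mem_univ _⟩
  have hmax' : ∀ z, α z ≤ α x1 := fun z => hmax z (Finset.mem_univ _)
  have hx1 : r < α x1 := by
    obtain ⟨y, hy⟩ := hnb x1
    by_contra hcon
    push Not at hcon
    have := hbig x1 y hy hcon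
    have := hmax' y
    linarith
  obtain ⟨y0, hy0⟩ := hnb x1
  have hβ : ∀ y, G.Adj x1 y → α y = α y0 := fun y hy => hB1 x1 hx1 y y0 hy hy0
  have hdiam : ∀ z, z ≠ x1 → ¬ G.Adj x1 z → ∃ y, G.Adj x1 y ∧ G.Adj z y := by
    intro z hz hn
    exact h.cd_pos_nonadj x1 z (Ne.symm hz) hn
  by_cases hab : α x1 = α y0
  · -- constant: regular
    have hconst : ∀ z, α z = α x1 := by
      intro z
      by_cases hz : z = x1
      · rw [hz]
      · by_cases hn : G.Adj x1 z
        · rw [hβ z hn, hab]
        · obtain ⟨y, hy1, hy2⟩ := hdiam z hz hn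
          have e1 : r < α y := by rw [hβ y hy1, ← hab]; exact hx1
          exact hB1 y e1 z x1 hy2.symm hy1.symm
    exact hreg (h.reg_of_const fun a b _ => by rw [hconst a, hconst b])
  · have I1 : ∀ y z, G.Adj x1 y → G.Adj x1 z → ¬ G.Adj y z := by
      intro y z hy hz hyz
      have e1 : r < α y := by
        by_contra hcon
        push Not at hcon
        have := hbig y z hyz hcon
        rw [hβ z hz, ← hβ y hy] at this
        linarith
      have e2 := hB1 y e1 x1 z hy.symm hyz
      rw [hβ z hz] at e2
      exact hab e2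
    have I2 : ∀ u v, ¬ G.Adj x1 u → ¬ G.Adj x1 v → ¬ G.Adj u v := by
      intro u v hu hv huv
      have hux : u ≠ x1 := by rintro rfl; exact hv huv
      have hvx : v ≠ x1 := by rintro rfl; exact hu huv.symm
      obtain ⟨y, hy1, hy2⟩ := hdiam u hux hu
      obtain ⟨y', hy1', hy2'⟩ := hdiam v hvx hv
      rcases le_or_gt (α y0) r with hs | hl
      · -- neighbours of x1 are small
        have e1 : r < α u := hbig y u hy2.symm (by rw [hβ y hy1]; exact hs)
        have e2 := hB1 u e1 v y huv hy2
        have e3 : α v ≤ r := by rw [e2, hβ y hy1]; exact hs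
        have e4 : r < α v := hbig y' v hy2'.symm (by rw [hβ y' hy1']; exact hs)
        linarith
      · have e1 := hB1 y (by rw [hβ y hy1]; exact hl) u x1 hy2.symm hy1.symm
        have e2 := hB1 y' (by rw [hβ y' hy1']; exact hl) v x1 hy2'.symm hy1'.symm
        have e3 := hB1 u (by rw [e1]; exact hx1) v y huv hy2
        rw [e2, hβ y hy1] at e3
        exact hab e3
    apply hbip
    refine ⟨{z | G.Adj x1 z}, fun u v => ?_⟩
    simp only [Set.mem_ofPred_eq]
    constructor
    · intro huv hiff
      by_cases hu : G.Adj x1 u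
      · exact I1 u v hu (hiff.mp hu) huv
      · exact I2 u v hu (fun hv => hu (hiff.mpr hv)) huv
    · intro hne
      by_contra hn
      have huv : u ≠ v := by rintro rfl; exact hne Iff.rfl
      obtain ⟨w, hw1, hw2⟩ := h.cd_pos_nonadj u v huv hn
      by_cases hu : G.Adj x1 u
      · have hv : ¬ G.Adj x1 v := fun hv => hne ⟨fun _ => hv, fun _ => hu⟩
        by_cases hw : G.Adj x1 w
        · exact I1 u w hu hw hw1
        · exact I2 v w hv hw hw2
      · have hv : G.Adj x1 v := by
          by_contra hv
          exact hne ⟨fun hh => absurd hh hu, fun hh => absurd hh hv⟩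
        by_cases hw : G.Adj x1 w
        · exact I1 v w hv hw hw2
        · exact I2 u w hu hw hw1

end TV
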