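import Mathlib
import Pool.Agent.TV.Spread2

set_option autoImplicit false
set_option linter.unusedSectionVars false
set_option linter.unusedVariables false

/-!
# Few common neighbours of nonadjacent vertices
-/

namespace TV

open Finset TE TS

variable {V : Type*} [Fintype V] [DecidableEq V]
variable {G : SimpleGraph V} [DecidableRel G.Adj] {T θ0 θ1 θ2 : ℝ} {α : V → ℝ}

/-- a dominating vertex `w`: `α_x² + W = α_w α_x` with `W = (θ1 + 1)(-θ2 - 1)` -/
lemma dom_eq (h : Dat G T θ0 θ1 θ2 α) {w : V} (hw : ∀ y, y ≠ w → G.Adj w y) {x : V}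
    (hx : x ≠ w) : α x ^ 2 + (θ1 + 1) * (-θ2 - 1) = α w * α x := by
  have hadj := hw x hx
  have h1 : cd G w x + 1 = G.degree x := by
    have e1 : G.neighborFinset w ∩ G.neighborFinset x = (G.neighborFinset x).erase w := by
      ext y
      rw [Finset.mem_inter, Finset.mem_erase, SimpleGraph.mem_neighborFinset,
        SimpleGraph.mem_neighborFinset]
      constructor
      · rintro ⟨a1, a2⟩
        exact ⟨a1.ne', a2⟩
      · rintro ⟨a1, a2⟩
        exact ⟨hw y a1, a2⟩
    unfold cd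
    rw [e1, Finset.card_erase_of_mem (by rw [SimpleGraph.mem_neighborFinset]; exact hadj.symm),
      SimpleGraph.card_neighborFinset_eq_degree]
    have : 0 < G.degree x := by
      rw [← SimpleGraph.card_neighborFinset_eq_degree]
      exact Finset.card_pos.mpr ⟨w, by rw [SimpleGraph.mem_neighborFinset]; exact hadj.symm⟩
    omega
  have h2 : (cd G w x : ℝ) + 1 = G.degree x := by exact_mod_cast h1
  rw [h.adj w x hadj, h.diag x] at h2
  linarith

lemma dom_deg {w : V} (hw : ∀ y, y ≠ w → G.Adj w y) :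
    (G.degree w : ℝ) = (Fintype.card V : ℝ) - 1 := by
  have e1 : G.neighborFinset w = Finset.univ.erase w := by
    ext y
    rw [SimpleGraph.mem_neighborFinset, Finset.mem_erase]
    constructor
    · intro a; exact ⟨a.ne', Finset.mem_univ _⟩
    · rintro ⟨a, _⟩; exact hw y a
  have e2 : G.degree w + 1 = Fintype.card V := by
    rw [← SimpleGraph.card_neighborFinset_eq_degree, e1,
      Finset.card_erase_of_mem (Finset.mem_univ _), Finset.card_univ]
    have : 0 < Fintype.card V := Fintype.card_pos_iff.mpr ⟨w⟩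
    omega
  have : (G.degree w : ℝ) + 1 = Fintype.card V := by exact_mod_cast e2
  linarith

lemma dom_real {a b θ t W s0 : ℝ} (hW : 0 < W) (k1 : a * (b ^ 2 + t) = θ * b)
    (k2 : a * (a ^ 2 + t) + (b - a) = θ * a) (hab : b * a = a ^ 2 + W) (hT : t = W + 1 + s0) :
    W = a ^ 2 * (a ^ 2 - 2 - s0) := by
  have k5 : a * (a * (b ^ 2 + t)) = b * (a * (a ^ 2 + t) + (b - a)) := by
    rw [k1, k2]; ring
  have e1 : W * ((a ^ 2 - 1) * (a ^ 2 + W)) = W * (a ^ 2 * t) := by
    linear_combination a ^ 2 * k5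
      - ((a ^ 2 - 1) * (b * a + (a ^ 2 + W)) - a ^ 2 * (a ^ 2 + t - 1)) * hab
  have k6 : (a ^ 2 - 1) * (a ^ 2 + W) = a ^ 2 * t := mul_left_cancel₀ hW.ne' e1
  linear_combination (-1) * k6 - a ^ 2 * hT

/-- the last case in real numbers -/
lemma dom_fin {n a b t W r s0 : ℝ} (hr : 1 ≤ r) (ha1 : 1 ≤ a) (har : a ≤ r) (hb : 0 < b)
    (hab : b * a = a ^ 2 + W) (k7 : W = a ^ 2 * (a ^ 2 - 2 - s0)) (hs : -s0 ≤ r ^ 2 - 1)
    (hT2 : t ≤ 2 * W) (hn : b ^ 2 + t = n - 1) : n ≤ 51200 * r ^ 8 := by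
  have hr4 : r ^ 4 ≤ r ^ 8 := pow_le_pow_right₀ hr (by norm_num)
  have hr2 : r ^ 2 ≤ r ^ 4 := pow_le_pow_right₀ hr (by norm_num)
  have ha2 : a ^ 2 ≤ r ^ 2 := pow_le_pow_left₀ (by linarith) har 2
  have ha0 : 0 ≤ a ^ 2 := sq_nonneg a
  have k8 : W ≤ 2 * r ^ 4 := by
    rw [k7]
    have e1 : a ^ 2 - 2 - s0 ≤ 2 * r ^ 2 := by linarith
    calc a ^ 2 * (a ^ 2 - 2 - s0) ≤ a ^ 2 * (2 * r ^ 2) := mul_le_mul_of_nonneg_left e1 ha0
      _ ≤ r ^ 2 * (2 * r ^ 2) := mul_le_mul_of_nonneg_right ha2 (by positivity)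
      _ = 2 * r ^ 4 := by ring
  have k9 : b ≤ 3 * r ^ 4 := by
    have e1 : b * 1 ≤ b * a := mul_le_mul_of_nonneg_left ha1 hb.le
    rw [hab] at e1
    linarith
  have k10 : b ^ 2 ≤ (3 * r ^ 4) ^ 2 := pow_le_pow_left₀ hb.le k9 2
  have e8 : (3 * r ^ 4) ^ 2 = 9 * r ^ 8 := by ring
  have e10 : 1 ≤ r ^ 8 := one_le_pow₀ hr
  rw [e8] at k10
  linarith

theorem few_common (h : Dat G T θ0 θ1 θ2 α) (hreg : ¬ ∃ d, G.IsRegularOfDegree d)
    (h1 : 0 < θ1) {r : ℝ} (hr : 1 ≤ r)
    (hmu : ∀ x y, x ≠ y → ¬ G.Adj x y → (cd G x y : ℝ) ≤ r) :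
    (Fintype.card V : ℝ) ≤ 51200 * r ^ 8 := by
  have hone := fun z => h.one_le hreg z
  have hr4 : r ^ 4 ≤ r ^ 8 := pow_le_pow_right₀ hr (by norm_num)
  have hr2 : r ^ 2 ≤ r ^ 4 := pow_le_pow_right₀ hr (by norm_num)
  have hr04 : 1 ≤ r ^ 4 := one_le_pow₀ hr
  have hnd : ∀ x, (∃ y, y ≠ x ∧ ¬ G.Adj x y) → α x ≤ r := by
    rintro x ⟨y, hyx, hn⟩
    have e1 := hmu x y (Ne.symm hyx) hn
    rw [h.nadj x y (Ne.symm hyx) hn] at e1
    have e2 := hone y
    have e3 := h.pos x
    nlinarith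
  by_cases hall : ∀ x, ∃ y, y ≠ x ∧ ¬ G.Adj x y
  · have e1 := card_le_M h hreg h1 (M := r) fun x => hnd x (hall x)
    nlinarith
  push Not at hall
  obtain ⟨w, hw⟩ := hall
  have hW : 0 < (θ1 + 1) * (-θ2 - 1) := by
    have e1 := theta2_le h
    have e2 := VB.theta2_ne' h hreg
    have e3 : θ2 < -1 := lt_of_le_of_ne e1 e2
    exact mul_pos (by linarith) (by linarith)
  have hdeg := dom_deg (G := G) hw
  rw [h.diag w] at hdeg
  have hsmall : ∀ x, x ≠ w → α x ≤ r := by
    intro x hx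
    by_cases hdom : ∃ y, y ≠ x ∧ ¬ G.Adj x y
    · exact hnd x hdom
    · exfalso
      push Not at hdom
      have e1 := dom_deg (G := G) hdom
      rw [h.diag x] at e1
      have e2 : α x ^ 2 = α w ^ 2 := by linarith
      have e3 : α x = α w := by
        have := h.pos x
        have := h.pos w
        nlinarith
      have e4 := dom_eq h hw hx
      rw [e3] at e4
      nlinarith
  -- a second vertex
  obtain ⟨x1, hx1⟩ : ∃ x, x ≠ w := by
    by_contra hcon
    push Not at hcon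
    apply hreg
    exact h.reg_of_const fun a b hab => by rw [hcon a, hcon b]
  have hE1 := dom_eq h hw hx1
  set W : ℝ := (θ1 + 1) * (-θ2 - 1) with hWd
  set a : ℝ := α x1 with ha
  set b : ℝ := α w with hb
  have ha1 : 1 ≤ a := hone x1
  have har : a ≤ r := hsmall x1 hx1
  have hab : a < b := by
    by_contra hcon
    push Not at hcon
    nlinarith
  have hb0 : 0 < b := by linarith
  have hT : -(θ1 * θ2) = W + 1 + (θ1 + θ2) := by rw [hWd]; ring
  have hTpos := tau_ge_one h hreg h1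
  have hW1 : 1 ≤ W := by
    have e1 := sep h hreg h1 x1 w hab.ne
    rw [abs_sub_comm, abs_of_pos (sub_pos.mpr hab)] at e1
    nlinarith
  have hT2 : -(θ1 * θ2) ≤ 2 * W := by
    rcases le_or_gt θ1 (-θ2) with e1 | e1
    · linarith
    · have e2 := VB.u_two h hreg e1
      have e3 : θ1 + 1 ≤ W := by rw [hWd]; nlinarith
      linarith
  -- a triangle through w and x1
  have hs0 : -(θ1 + θ2) ≤ r ^ 2 - 1 := by
    have e1 : 1 < (G.neighborFinset x1).card := by
      have e2 : (1 : ℝ) < G.degree x1 := by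
        rw [h.diag x1]
        nlinarith
      rw [SimpleGraph.card_neighborFinset_eq_degree]
      exact_mod_cast e2
    obtain ⟨y, hy, hyw⟩ := Finset.exists_mem_ne e1 w
    rw [SimpleGraph.mem_neighborFinset] at hy
    have e3 : 1 ≤ cd G x1 y := by
      unfold cd
      refine Finset.card_pos.mpr ⟨w, ?_⟩
      rw [Finset.mem_inter, SimpleGraph.mem_neighborFinset, SimpleGraph.mem_neighborFinset]
      exact ⟨(hw x1 hx1).symm, (hw y hyw).symm⟩
    have e4 : (1 : ℝ) ≤ cd G x1 y := by exact_mod_cast e3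
    rw [h.adj x1 y hy] at e4
    have e5 := hsmall y hyw
    have e6 : α x1 * α y ≤ r * r := mul_le_mul har e5 (h.pos y).le (by linarith)
    nlinarith
  rcases le_or_gt b (2 * r) with hc | hc
  · have e1 := card_le_M h hreg h1 (M := 2 * r) fun x => by
      by_cases hx : x = w
      · rw [hx]; exact hc
      · have := hsmall x hx; linarith
    have e2 : (2 * r) ^ 4 = 16 * r ^ 4 := by ring
    rw [e2] at e1
    nlinarith
  -- all other entries are equal
  have hsame : ∀ y, y ≠ w → α y = a := by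
    intro y hy
    have e1 := dom_eq h hw hy
    rw [← hb, ← hWd] at e1
    have e2 := hsmall y hy
    have e3 : (α y - a) * (α y + a - b) = 0 := by nlinarith
    rcases mul_eq_zero.mp e3 with e4 | e4
    · linarith
    · exfalso; linarith
  have hval : ∀ y, α y = a + (if y = w then b - a else 0) := by
    intro y
    by_cases hy : y = w
    · rw [if_pos hy, hy]; ring
    · rw [if_neg hy, hsame y hy]; ring
  have hsum : ∀ x, ∑ y, ad G x y * α y = a * (G.degree x : ℝ) + (b - a) * ad G x w := by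
    intro x
    have e1 : ∀ y, ad G x y * α y = a * ad G x y + (if y = w then (b - a) * ad G x y else 0) := by
      intro y
      rw [hval y]
      split_ifs <;> ring
    rw [Finset.sum_congr rfl fun y _ => e1 y, Finset.sum_add_distrib, ← Finset.mul_sum, sum_ad]
    simp
  have k1 := h.eig w
  rw [hsum w] at k1
  have k2 := h.eig x1
  rw [hsum x1] at k2
  have k3 : ad G w w = 0 := by unfold ad; simp
  have k4 : ad G x1 w = 1 := by unfold ad; rw [if_pos (hw x1 hx1).symm]
  rw [k3, mul_zero, add_zero, h.diag w, ← hb] at k1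
  rw [k4, mul_one, h.diag x1, ← ha] at k2
  set t : ℝ := -(θ1 * θ2) with ht
  have k1' : a * (b ^ 2 + t) = θ0 * b := by rw [ht]; linarith
  have k2' : a * (a ^ 2 + t) + (b - a) = θ0 * a := by rw [ht]; linarith
  have hab' : b * a = a ^ 2 + W := hE1.symm
  have k7 : W = a ^ 2 * (a ^ 2 - 2 - (θ1 + θ2)) := dom_real hW k1' k2' hab' hT
  exact dom_fin hr ha1 har hb0 hab' k7 hs0 hT2 (by rw [ht]; linarith)

end TV
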